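import Pool.Agent.Helper46.Fit.Defs

/-!
Basic lemmas on Fitting classes and the main consequence of saturation.
-/

namespace Pool.Agent.Helper46.Fit

open FittingClass

namespace FittingClass

variable {F X Y : FittingClass} {G H W : Type} [Group G] [Group H] [Group W]

lemma mem_of_le_normalizer {N M : Subgroup W} (hNM : N ≤ M)
    (hn : M ≤ Subgroup.normalizer (N : Set W)) (h : F.Mem M) : F.Mem N := by
  have h0 : (N.subgroupOf M).Normal := Subgroup.normal_subgroupOf_of_le_normalizer hn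
  have h1 : F.Mem (N.subgroupOf M) := F.normal (N.subgroupOf M) h
  have h2 := (mem_map_iff (N.subgroupOf M) M.subtype (Subgroup.subtype_injective M)).2 h1
  rwa [Subgroup.subgroupOf_map_subtype, inf_of_le_left hNM] at h2

lemma mem_sup_of_le_normalizer [Finite W] {N₁ N₂ : Subgroup W}
    (h₁ : N₁ ≤ Subgroup.normalizer (N₂ : Set W)) (h₂ : N₂ ≤ Subgroup.normalizer (N₁ : Set W))
    (m₁ : F.Mem N₁) (m₂ : F.Mem N₂) : F.Mem (N₁ ⊔ N₂ : Subgroup W) := by
  set M : Subgroup W := N₁ ⊔ N₂ with hM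
  have n₁ : (N₁.subgroupOf M).Normal := Subgroup.normal_subgroupOf_of_le_normalizer
    (sup_le Subgroup.le_normalizer h₂)
  have n₂ : (N₂.subgroupOf M).Normal := Subgroup.normal_subgroupOf_of_le_normalizer
    (sup_le h₁ Subgroup.le_normalizer)
  have k₁ : F.Mem (N₁.subgroupOf M) := by
    rw [← mem_map_iff _ M.subtype (Subgroup.subtype_injective M),
      Subgroup.subgroupOf_map_subtype, inf_of_le_left le_sup_left]
    exact m₁
  have k₂ : F.Mem (N₂.subgroupOf M) := by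
    rw [← mem_map_iff _ M.subtype (Subgroup.subtype_injective M),
      Subgroup.subgroupOf_map_subtype, inf_of_le_left le_sup_right]
    exact m₂
  have h5 := F.sup _ _ k₁ k₂
  rw [← Subgroup.subgroupOf_sup le_sup_left le_sup_right, Subgroup.subgroupOf_self] at h5
  exact mem_top_iff.1 h5

lemma mem_mul_pPrime [Finite G] {p : ℕ} [Fact p.Prime] :
    (X * pPrimeGroups p).Mem G ↔ X.NonEmpty ∧ ¬ p ∣ Nat.card (G ⧸ X.rad G) := by
  rw [mem_mul]
  constructor
  · rintro ⟨_, h2, h3⟩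
    exact ⟨h2, h3.2⟩
  · rintro ⟨h2, h3⟩
    exact ⟨inferInstance, h2, inferInstance, h3⟩

lemma mem_mul_pGroups [Finite G] {p : ℕ} :
    (X * pGroups p).Mem G ↔ X.NonEmpty ∧ IsPGroup p (G ⧸ X.rad G) := by
  rw [mem_mul]
  constructor
  · rintro ⟨_, h2, h3⟩
    exact ⟨h2, h3.2⟩
  · rintro ⟨h2, h3⟩
    exact ⟨inferInstance, h2, inferInstance, h3⟩

lemma pGroups_nonEmpty (p : ℕ) : (pGroups p).NonEmpty :=
  ⟨Unit, inferInstance, inferInstance, fun g => ⟨0, Subsingleton.elim _ _⟩⟩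

lemma mul_nonEmpty (hX : X.NonEmpty) (hY : Y.NonEmpty) : (X * Y).NonEmpty := by
  refine ⟨Unit, inferInstance, inferInstance, hX, ?_⟩
  have : Subsingleton (Unit ⧸ X.rad Unit) := inferInstance
  exact mem_of_subsingleton hY _

lemma isPGroup_quot_of_le {p : ℕ} {N M : Subgroup G} [N.Normal] [M.Normal] (h : N ≤ M)
    (hp : IsPGroup p (G ⧸ N)) : IsPGroup p (G ⧸ M) := by
  intro x
  obtain ⟨g, rfl⟩ := QuotientGroup.mk_surjective x
  obtain ⟨k, hk⟩ := hp (g : G ⧸ N)
  refine ⟨k, ?_⟩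
  rw [← QuotientGroup.mk_pow, QuotientGroup.eq_one_iff] at hk ⊢
  exact h hk

lemma mem_mul_pGroups_of [Finite G] {p : ℕ} (N : Subgroup G) [N.Normal] (hN : X.Mem N)
    (hp : IsPGroup p (G ⧸ N)) : (X * pGroups p).Mem G := by
  rw [mem_mul_pGroups]
  exact ⟨nonEmpty_of_mem hN, isPGroup_quot_of_le (le_rad inferInstance hN) hp⟩

lemma mem_mul_pPrime_of_mem [Finite G] {p : ℕ} [hp : Fact p.Prime] (h : X.Mem G) :
    (X * pPrimeGroups p).Mem G := by
  rw [mem_mul_pPrime]
  have h1 := nonEmpty_of_mem h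
  refine ⟨h1, ?_⟩
  have h2 : X.rad G = ⊤ := (rad_eq_top_iff h1).2 h
  have h3 : Nat.card (G ⧸ X.rad G) = 1 := by
    rw [h2]
    exact Subgroup.index_top
  rw [h3]
  exact hp.out.one_lt.ne' ∘ Nat.dvd_one.1

/-- Extension by a `p'`-group on top. -/
lemma mem_mul_pPrime_of_normal [Finite G] {p : ℕ} [hp : Fact p.Prime] (N : Subgroup G) [N.Normal]
    (h : (X * pPrimeGroups p).Mem N) (hN : ¬ p ∣ Nat.card (G ⧸ N)) :
    (X * pPrimeGroups p).Mem G := by
  rw [mem_mul_pPrime] at h ⊢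
  refine ⟨h.1, fun hd => ?_⟩
  have h1 := rad_map_subtype_le N h.1
  have h2 : (X.rad G).index ∣ ((X.rad N).map N.subtype).index := Subgroup.index_dvd_of_le h1
  have h3 : ((X.rad N).map N.subtype).index = (X.rad N).index * N.index :=
    Subgroup.index_map_subtype (X.rad N)
  have h4 : p ∣ (X.rad N).index * N.index := by
    rw [← h3]
    exact dvd_trans hd h2
  rcases (hp.out.dvd_mul).1 h4 with h5 | h5
  · exact h.2 h5
  · exact hN h5

end FittingClass

/-- A commutator-closed subgroup lying in a subgroup which is a `p`-group modulo `R` lies in `R`. -/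
lemma le_of_comm {G : Type} [Group G] [Finite G] {p : ℕ} [Fact p.Prime] {K P R : Subgroup G}
    [R.Normal] {y : G} (hK : K ≤ ⁅K, Subgroup.zpowers y⁆) (hKP : K ≤ P) (hy : y ∈ P)
    (hP : ∀ x ∈ P, ∃ n : ℕ, x ^ p ^ n ∈ R) : K ≤ R := by
  have h1 : IsPGroup p (P.map (QuotientGroup.mk' R)) := by
    rintro ⟨_, x, hx, rfl⟩
    obtain ⟨n, hn⟩ := hP x hx
    refine ⟨n, Subtype.ext ?_⟩
    simp only [QuotientGroup.mk'_apply, SubmonoidClass.coe_pow, OneMemClass.coe_one]
    rw [← QuotientGroup.mk_pow]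
    exact (QuotientGroup.eq_one_iff _).2 hn
  have h2 := h1.isNilpotent
  obtain ⟨n, hn⟩ := (Subgroup.isNilpotent_iff_lowerCentralSeries _).1 h2
  have h3 : ∀ n, K.map (QuotientGroup.mk' R) ≤
      (P.map (QuotientGroup.mk' R)).lowerCentralSeries n := by
    intro n
    induction n with
    | zero => exact Subgroup.map_mono hKP
    | succ n ih =>
      rw [Subgroup.lowerCentralSeries_succ]
      refine (Subgroup.map_mono hK).trans ?_
      rw [Subgroup.map_commutator]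
      refine Subgroup.commutator_mono ih (Subgroup.map_mono ?_)
      rw [Subgroup.zpowers_le]
      exact hy
  have h4 := h3 n
  rw [hn, le_bot_iff, Subgroup.map_eq_bot_iff, QuotientGroup.ker_mk'] at h4
  exact h4

lemma exists_of_sup_zpowers {Y : Type} [Group Y] {K : Subgroup Y} [K.Normal] {y : Y}
    (htop : K ⊔ Subgroup.zpowers y = ⊤) (x : Y) : ∃ k ∈ K, ∃ i : ℤ, x = k * y ^ i := by
  have h1 : x ∈ K ⊔ Subgroup.zpowers y := by rw [htop]; trivial
  rw [Subgroup.mem_sup_of_normal_left] at h1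
  obtain ⟨k, hk, z, hz, rfl⟩ := h1
  obtain ⟨i, rfl⟩ := Subgroup.mem_zpowers_iff.1 hz
  exact ⟨k, hk, i, rfl⟩

lemma comm_mem {Y : Type} [Group Y] {K : Subgroup Y} [K.Normal] {y : Y}
    (htop : K ⊔ Subgroup.zpowers y = ⊤) (a b : Y) : a * b * a⁻¹ * b⁻¹ ∈ K := by
  obtain ⟨k, hk, i, rfl⟩ := exists_of_sup_zpowers htop a
  obtain ⟨l, hl, j, rfl⟩ := exists_of_sup_zpowers htop b
  rw [← QuotientGroup.eq_one_iff] at hk hl ⊢
  simp only [QuotientGroup.mk_mul, QuotientGroup.mk_inv, hk, hl, one_mul, mul_inv_rev,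
    QuotientGroup.mk_zpow]
  rw [inv_one, mul_one, mul_one]
  group

lemma commutator_le_of {Y : Type} [Group Y] {K : Subgroup Y}
    (h : ∀ a b : Y, a * b * a⁻¹ * b⁻¹ ∈ K) : commutator Y ≤ K := by
  rw [commutator_def, Subgroup.commutator_le]
  intro a _ b _
  rw [commutatorElement_def]
  exact h a b

lemma normal_of_comm_mem {Y : Type} [Group Y] {K N : Subgroup Y}
    (h : ∀ a b : Y, a * b * a⁻¹ * b⁻¹ ∈ K) (hKN : K ≤ N) : N.Normal :=
  Subgroup.Normal.of_commutator_le _ ((commutator_le_of h).trans hKN)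

lemma isPGroup_quot {Y : Type} [Group Y] {q : ℕ} {K : Subgroup Y} [K.Normal] {y : Y}
    (htop : K ⊔ Subgroup.zpowers y = ⊤) (hy : ∃ n : ℕ, y ^ q ^ n = 1) : IsPGroup q (Y ⧸ K) := by
  intro x
  obtain ⟨g, rfl⟩ := QuotientGroup.mk_surjective x
  obtain ⟨k, hk, i, rfl⟩ := exists_of_sup_zpowers htop g
  obtain ⟨n, hn⟩ := hy
  refine ⟨n, ?_⟩
  rw [← QuotientGroup.eq_one_iff] at hk
  rw [QuotientGroup.mk_mul, hk, one_mul, ← QuotientGroup.mk_pow, ← zpow_natCast, ← zpow_mul,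
    mul_comm, zpow_mul, zpow_natCast, hn, one_zpow]
  rfl

/-- The main consequence of saturation. -/
theorem star {F : FittingClass} (hsat : F.Saturated) {Y : Type} [Group Y] [Finite Y] {q : ℕ}
    [hq : Fact q.Prime] (K : Subgroup Y) [K.Normal] (y : Y)
    (htop : K ⊔ Subgroup.zpowers y = ⊤) (hy : ∃ n : ℕ, y ^ q ^ n = 1)
    (hK : K ≤ ⁅K, Subgroup.zpowers y⁆) (hsol : Group.IsSolvable K) (hyq : y ^ q ≠ 1)
    (h0 : F.Mem (K ⊔ Subgroup.zpowers (y ^ q) : Subgroup Y))
    (hcond : ∀ h : FittingClass, h.NonEmpty →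
      (h * pGroups q * pPrimeGroups q).Mem (K ⊔ Subgroup.zpowers (y ^ q) : Subgroup Y) →
      h.Mem K) : F.Mem Y := by
  set Y₀ : Subgroup Y := K ⊔ Subgroup.zpowers (y ^ q) with hY₀
  have hcomm := comm_mem htop
  have hY₀n : Y₀.Normal := normal_of_comm_mem hcomm le_sup_left
  have hpK : IsPGroup q (Y ⧸ K) := isPGroup_quot htop hy
  have hpY₀ : IsPGroup q (Y ⧸ Y₀) := isPGroup_quot_of_le le_sup_left hpK
  have hpcard : ∀ p : ℕ, p.Prime → p ∣ Nat.card (Y ⧸ Y₀) → p = q := by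
    intro p hp hd
    obtain ⟨n, hn⟩ := IsPGroup.iff_card.1 hpY₀
    rw [hn] at hd
    exact (Nat.prime_dvd_prime_iff_eq hp hq.out).1 (hp.dvd_of_dvd_pow hd)
  -- maximality
  have hmax : ∀ M : Subgroup Y, M.Normal → M ≠ ⊤ → M ≤ Y₀ := by
    intro M hM hMt
    by_contra hcon
    obtain ⟨m, hm, hmY⟩ := SetLike.not_le_iff_exists.1 hcon
    obtain ⟨k, hk, i, rfl⟩ := exists_of_sup_zpowers htop m
    have hi : ¬ (q : ℤ) ∣ i := by
      rintro ⟨j, rfl⟩
      apply hmY
      refine Y₀.mul_mem ((le_sup_left : K ≤ Y₀) hk) ((le_sup_right : _ ≤ Y₀) ?_)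
      rw [zpow_mul, zpow_natCast]
      exact Subgroup.zpow_mem _ (Subgroup.mem_zpowers _) j
    have hyi : y ^ i ∈ M ⊔ K := by
      have h1 := (M ⊔ K).mul_mem ((M ⊔ K).inv_mem ((le_sup_right : K ≤ M ⊔ K) hk))
        ((le_sup_left : M ≤ M ⊔ K) hm)
      rwa [inv_mul_cancel_left] at h1
    obtain ⟨n, hn⟩ := hy
    have hcop : IsCoprime i ((q ^ n : ℕ) : ℤ) := by
      rw [Nat.cast_pow]
      apply IsCoprime.pow_right
      have h1 : Prime (q : ℤ) := Nat.prime_iff_prime_int.1 hq.out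
      exact ((Prime.coprime_iff_not_dvd h1).2 hi).symm
    obtain ⟨a, b, hab⟩ := hcop
    have hyM : y ∈ M ⊔ K := by
      have h1 : y = (y ^ i) ^ a := by
        have h2 : y ^ (a * i + b * ((q ^ n : ℕ) : ℤ)) = (y ^ i) ^ a := by
          rw [zpow_add, mul_comm a i, zpow_mul, mul_comm b, zpow_mul y ((q ^ n : ℕ) : ℤ) b,
            zpow_natCast, hn, one_zpow, mul_one]
        rw [← h2, hab, zpow_one]
      rw [h1]
      exact (M ⊔ K).zpow_mem hyi a
    have hMK : M ⊔ K = ⊤ := by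
      rw [eq_top_iff, ← htop]
      exact sup_le le_sup_right (by rw [Subgroup.zpowers_le]; exact hyM)
    have hKt : K.map (QuotientGroup.mk' M) = ⊤ := by
      rw [eq_top_iff, ← MonoidHom.range_eq_top.2 (QuotientGroup.mk'_surjective M),
        MonoidHom.range_eq_map, ← hMK, Subgroup.map_sup]
      refine sup_le ?_ le_rfl
      rw [(Subgroup.map_eq_bot_iff M).2 (by rw [QuotientGroup.ker_mk'])]
      exact bot_le
    have hsol' : Group.IsSolvable (Y ⧸ M) := by
      have h1 : Group.IsSolvable (K.map (QuotientGroup.mk' M)) :=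
        Group.isSolvable_of_surjective ((QuotientGroup.mk' M).subgroupMap_surjective K)
      rw [hKt] at h1
      exact Group.isSolvable_of_surjective
        (f := (Subgroup.topEquiv (G := Y ⧸ M)).toMonoidHom) (Subgroup.topEquiv).surjective
    have hnt : Nontrivial (Y ⧸ M) := by
      rw [← not_subsingleton_iff_nontrivial]
      intro h
      exact hMt (QuotientGroup.subsingleton_iff.1 h)
    have h1 : commutator (Y ⧸ M) < ⊤ := Group.IsSolvable.commutator_lt_top_of_nontrivial _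
    apply h1.ne
    rw [eq_top_iff, ← hKt]
    refine (Subgroup.map_mono hK).trans ?_
    rw [Subgroup.map_commutator, commutator_def]
    exact Subgroup.commutator_mono le_top le_top
  -- `Y₀ ∈ PsiSet Y`
  have hqY₀ : q ∣ Nat.card Y₀ := by
    obtain ⟨n, hn⟩ := hy
    have h1 : (y ^ q) ^ q ^ n = 1 := by rw [← pow_mul, mul_comm, pow_mul, hn, one_pow]
    have h2 : orderOf (y ^ q) ∣ q ^ n := orderOf_dvd_of_pow_eq_one h1
    obtain ⟨m, -, hm⟩ := (Nat.dvd_prime_pow hq.out).1 h2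
    have h3 : orderOf (y ^ q) ∣ Nat.card Y₀ := by
      have h4 : y ^ q ∈ Y₀ := (le_sup_right : _ ≤ Y₀) (Subgroup.mem_zpowers _)
      have h5 := orderOf_dvd_natCard (⟨y ^ q, h4⟩ : Y₀)
      rwa [Subgroup.orderOf_mk] at h5
    refine dvd_trans ?_ h3
    cases m with
    | zero =>
      rw [pow_zero, orderOf_eq_one_iff] at hm
      exact absurd hm hyq
    | succ m => rw [hm]; exact dvd_pow_self q (Nat.succ_ne_zero m)
  have hL : ∀ L : FittingClass, L.Local → (L.Mem Y₀ ↔ L.Mem Y) := by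
    rintro L ⟨h, hh⟩
    refine ⟨fun h1 => ?_, fun h1 => L.normal Y₀ h1⟩
    rw [hh] at h1 ⊢
    obtain ⟨_, h2, h3⟩ := h1
    refine ⟨inferInstance, ?_, ?_⟩
    · intro p hp hd
      rw [Subgroup.card_eq_card_quotient_mul_card_subgroup Y₀] at hd
      rcases (hp.out.dvd_mul).1 hd with h4 | h4
      · have h5 := hpcard p hp.out h4
        subst h5
        exact h2 p hqY₀
      · exact h2 p h4
    · intro p hp hne
      by_cases hpq : p = q
      · subst hpq
        have h4 := hcond (h p) hne (h3 p hne)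
        exact mem_mul_pPrime_of_mem (mem_mul_pGroups_of K h4 hpK)
      · exact mem_mul_pPrime_of_normal Y₀ (h3 p hne) fun hd => hpq (hpcard p hp.out hd)
  have hY₀P : Y₀ ∈ PsiSet Y := by
    refine ⟨hY₀n, fun M hM H _ => ?_⟩
    rcases hM.lt_normal with h | ⟨K', hK', hMK', hlt⟩
    · subst h
      rw [inf_top_eq]
      constructor
      · intro h1 L hL1 hL2
        exact h1 L hL1 ((hL L hL1).2 (mem_top_iff.1 hL2))
      · intro h1 L hL1 hL2
        exact h1 L hL1 (mem_top_iff.2 ((hL L hL1).1 hL2))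
    · have h1 : M ≤ Y₀ := hMK'.trans (hmax K' hK' hlt.ne)
      rw [inf_of_le_right h1]
  apply hsat
  have h1 : Psi Y ≤ Y₀ := isLeast_Psi.2 hY₀P
  have h2 : (Psi Y).Normal := isLeast_Psi.1.1
  exact mem_of_le_normal h1 h0

end Pool.Agent.Helper46.Fit
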