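import Mathlib

/-!
Fitting classes of finite groups, local Fitting classes, saturated Fitting classes.
-/

namespace Pool.Agent.Helper46.Fit

/-- A Fitting class of finite groups (the empty class is allowed): a class of finite groups closed
under isomorphisms, under normal subgroups, and under products of two normal subgroups. -/
structure FittingClass where
  /-- membership of a group in the class -/
  Mem : (G : Type) → [Group G] → Prop
  finite : ∀ {G : Type} [Group G], Mem G → Finite G
  iso : ∀ {G H : Type} [Group G] [Group H], (G ≃* H) → Mem G → Mem H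
  normal : ∀ {G : Type} [Group G] (N : Subgroup G) [N.Normal], Mem G → Mem N
  sup : ∀ {G : Type} [Group G] [Finite G] (N₁ N₂ : Subgroup G) [N₁.Normal] [N₂.Normal],
    Mem N₁ → Mem N₂ → Mem (N₁ ⊔ N₂ : Subgroup G)

namespace FittingClass

variable {F X Y : FittingClass} {G H : Type} [Group G] [Group H]

/-- The class is not empty. -/
def NonEmpty (F : FittingClass) : Prop := ∃ (G : Type) (_ : Group G), F.Mem G

/-- The radical: the join of all normal subgroups which belong to the class. -/
def rad (F : FittingClass) (G : Type) [Group G] : Subgroup G :=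
  sSup {N : Subgroup G | N.Normal ∧ F.Mem N}

lemma mem_of_injective_le {N : Subgroup G} (f : H →* G) (hf : Function.Injective f)
    (h : f.range = N) : F.Mem N ↔ F.Mem H := by
  subst h
  exact ⟨F.iso (MonoidHom.ofInjective hf).symm, F.iso (MonoidHom.ofInjective hf)⟩

lemma mem_map_iff (N : Subgroup H) (f : H →* G) (hf : Function.Injective f) :
    F.Mem (N.map f) ↔ F.Mem N :=
  ⟨F.iso (N.equivMapOfInjective f hf).symm, F.iso (N.equivMapOfInjective f hf)⟩

lemma mem_top_iff : F.Mem (⊤ : Subgroup G) ↔ F.Mem G :=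
  ⟨F.iso Subgroup.topEquiv, F.iso Subgroup.topEquiv.symm⟩

lemma mem_of_subsingleton (hF : F.NonEmpty) (G : Type) [Group G] [Subsingleton G] : F.Mem G := by
  obtain ⟨H, _, hH⟩ := hF
  have h1 : F.Mem (⊥ : Subgroup H) := F.normal ⊥ hH
  have : Unique G := ⟨⟨1⟩, fun a => Subsingleton.elim _ _⟩
  exact F.iso (MulEquiv.ofUnique (M := (⊥ : Subgroup H)) (N := G)) h1

lemma nonEmpty_of_mem (h : F.Mem G) : F.NonEmpty := ⟨G, _, h⟩

instance rad_normal : (F.rad G).Normal :=
  Subgroup.sSup_normal _ fun _ h => h.1

lemma le_rad {N : Subgroup G} (hN : N.Normal) (h : F.Mem N) : N ≤ F.rad G := le_sSup ⟨hN, h⟩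

lemma mem_finset_sup [Finite G] (hF : F.NonEmpty) (s : Finset (Subgroup G))
    (h : ∀ N ∈ s, N.Normal ∧ F.Mem N) : (s.sup id).Normal ∧ F.Mem (s.sup id : Subgroup G) := by
  classical
  induction s using Finset.induction_on with
  | empty =>
    rw [Finset.sup_empty]
    exact ⟨inferInstance, mem_of_subsingleton hF _⟩
  | insert N s hN ih =>
    rw [Finset.sup_insert]
    obtain ⟨h1, h2⟩ := ih fun M hM => h M (by simp [hM])
    obtain ⟨h3, h4⟩ := h N (by simp)
    rw [id]
    exact ⟨inferInstance, F.sup N (s.sup id) h4 h2⟩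

lemma mem_rad [Finite G] (hF : F.NonEmpty) : F.Mem (F.rad G) := by
  classical
  have := Fintype.ofFinite (Subgroup G)
  have h1 := mem_finset_sup (F := F) hF (Finset.univ.filter fun N : Subgroup G =>
    N.Normal ∧ F.Mem N) (fun N hN => (Finset.mem_filter.1 hN).2)
  have h2 : (Finset.univ.filter fun N : Subgroup G => N.Normal ∧ F.Mem N).sup id = F.rad G := by
    rw [rad, Finset.sup_id_eq_sSup]
    congr 1
    ext N
    simp
  rw [h2] at h1
  exact h1.2

/-- Transport of normal subgroups between a subgroup and the whole group. -/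
lemma rad_eq_top_iff [Finite G] (hF : F.NonEmpty) : F.rad G = ⊤ ↔ F.Mem G := by
  constructor
  · intro h
    have h1 := mem_rad (F := F) (G := G) hF
    rw [h] at h1
    exact mem_top_iff.1 h1
  · intro h
    rw [eq_top_iff]
    exact le_rad inferInstance (mem_top_iff.2 h)

lemma rad_map_iso (e : G ≃* H) : (F.rad G).map e.toMonoidHom = F.rad H := by
  have key : ∀ {G H : Type} [Group G] [Group H] (e : G ≃* H),
      (F.rad G).map e.toMonoidHom ≤ F.rad H := by
    intro G H _ _ e
    rw [Subgroup.map_le_iff_le_comap]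
    apply sSup_le
    rintro N ⟨hN, hF⟩
    rw [← Subgroup.map_le_iff_le_comap]
    exact le_rad (hN.map e.toMonoidHom e.surjective)
      ((mem_map_iff N e.toMonoidHom e.injective).2 hF)
  apply le_antisymm (key e)
  have h1 := key e.symm
  have h2 := Subgroup.map_mono (f := e.toMonoidHom) h1
  rw [Subgroup.map_map] at h2
  have h3 : e.toMonoidHom.comp e.symm.toMonoidHom = MonoidHom.id H := by ext; simp
  rwa [h3, Subgroup.map_id] at h2

/-- The radical of a normal subgroup is normal in the group. -/
lemma rad_map_subtype_normal (N : Subgroup G) [N.Normal] :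
    ((F.rad N).map N.subtype).Normal := by
  constructor
  rintro _ ⟨x, hx, rfl⟩ g
  have h1 := rad_map_iso (F := F) (MulAut.conjNormal (H := N) g)
  refine ⟨MulAut.conjNormal (H := N) g x, ?_, by simp⟩
  rw [← h1]
  exact Subgroup.mem_map_of_mem _ hx

lemma rad_map_subtype_le (N : Subgroup G) [N.Normal] [Finite G] (hF : F.NonEmpty) :
    (F.rad N).map N.subtype ≤ F.rad G :=
  le_rad (rad_map_subtype_normal N)
    ((mem_map_iff (F.rad N) N.subtype (Subgroup.subtype_injective N)).2 (mem_rad hF))

lemma mem_inf_of_normal {N M : Subgroup G} [N.Normal] [M.Normal] (h : F.Mem M) :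
    F.Mem (N ⊓ M : Subgroup G) := by
  have h1 : F.Mem (N.subgroupOf M) := F.normal (N.subgroupOf M) h
  have h2 := (mem_map_iff (N.subgroupOf M) M.subtype (Subgroup.subtype_injective M)).2 h1
  rwa [Subgroup.subgroupOf_map_subtype] at h2

lemma mem_of_le_normal {N M : Subgroup G} [N.Normal] (hNM : N ≤ M) (h : F.Mem M) : F.Mem N := by
  have h1 : F.Mem (N.subgroupOf M) := F.normal (N.subgroupOf M) h
  have h2 := (mem_map_iff (N.subgroupOf M) M.subtype (Subgroup.subtype_injective M)).2 h1
  rwa [Subgroup.subgroupOf_map_subtype, inf_of_le_left hNM] at h2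

/-- `rad N = N ∩ rad G` for normal `N`. -/
lemma rad_subgroup_eq [Finite G] (hF : F.NonEmpty) (N : Subgroup G) [N.Normal] :
    F.rad N = (F.rad G).subgroupOf N := by
  apply le_antisymm
  · have h1 := rad_map_subtype_le N hF
    rwa [Subgroup.map_le_iff_le_comap] at h1
  · apply le_rad inferInstance
    rw [← mem_map_iff _ N.subtype (Subgroup.subtype_injective N), Subgroup.subgroupOf_map_subtype,
      inf_comm]
    exact mem_inf_of_normal (mem_rad hF)

/-- The product of two Fitting classes: `G ∈ X * Y` iff `G ⧸ G_X ∈ Y` (empty if `X` is empty). -/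
instance : Mul FittingClass where
  mul X Y :=
    { Mem := fun G _ => Finite G ∧ X.NonEmpty ∧ Y.Mem (G ⧸ X.rad G)
      finite := fun h => h.1
      iso := fun {G H} _ _ e ⟨h1, h2, h3⟩ => by
        refine ⟨Finite.of_equiv _ e.toEquiv, h2, ?_⟩
        exact Y.iso (QuotientGroup.congr (X.rad G) (X.rad H) e (rad_map_iso e)) h3
      normal := fun {G} _ N _ ⟨h1, h2, h3⟩ => by
        refine ⟨inferInstance, h2, ?_⟩
        -- `N / rad N` embeds as a normal subgroup
        have e : X.rad N = (X.rad G).subgroupOf N := rad_subgroup_eq h2 N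
        let f : N ⧸ X.rad N →* G ⧸ X.rad G :=
          QuotientGroup.map (X.rad N) (X.rad G) N.subtype (by rw [e]; exact le_rfl)
        have hf : Function.Injective f := by
          rw [injective_iff_map_eq_one]
          intro x hx
          obtain ⟨n, rfl⟩ := QuotientGroup.mk_surjective x
          have h4 : ((n : G) : G ⧸ X.rad G) = 1 := hx
          rw [QuotientGroup.eq_one_iff] at h4 ⊢
          rw [e]
          exact h4
        have hr : f.range = N.map (QuotientGroup.mk' (X.rad G)) := by
          ext x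
          constructor
          · rintro ⟨y, rfl⟩
            obtain ⟨n, rfl⟩ := QuotientGroup.mk_surjective y
            exact ⟨n, n.2, rfl⟩
          · rintro ⟨n, hn, rfl⟩
            exact ⟨((⟨n, hn⟩ : N) : N ⧸ X.rad N), rfl⟩
        have hn : (N.map (QuotientGroup.mk' (X.rad G))).Normal :=
          Subgroup.Normal.map inferInstance _ (QuotientGroup.mk'_surjective _)
        exact (mem_of_injective_le f hf hr).1 (Y.normal _ h3)
      sup := fun {G} _ _ N₁ N₂ _ _ ⟨h1, h2, h3⟩ ⟨_, _, h3'⟩ => by
        refine ⟨inferInstance, h2, ?_⟩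
        set M : Subgroup G := N₁ ⊔ N₂ with hM
        have key : ∀ (N : Subgroup G) [N.Normal], N ≤ M → Y.Mem (N ⧸ X.rad N) →
            Y.Mem ((N.subgroupOf M).map (QuotientGroup.mk' (X.rad M)) :
              Subgroup (M ⧸ X.rad M)) := by
          intro N _ hNM hY
          have e1 : X.rad N = (X.rad G).subgroupOf N := rad_subgroup_eq h2 N
          have e2 : X.rad M = (X.rad G).subgroupOf M := rad_subgroup_eq h2 M
          let f : N ⧸ X.rad N →* M ⧸ X.rad M :=
            QuotientGroup.map (X.rad N) (X.rad M) (Subgroup.inclusion hNM) (by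
              rw [e1, e2]; exact fun x hx => hx)
          have hf : Function.Injective f := by
            rw [injective_iff_map_eq_one]
            intro x hx
            obtain ⟨n, rfl⟩ := QuotientGroup.mk_surjective x
            have h4 : ((Subgroup.inclusion hNM n : M) : M ⧸ X.rad M) = 1 := hx
            rw [QuotientGroup.eq_one_iff] at h4 ⊢
            rw [e2] at h4
            rw [e1]
            exact h4
          have hr : f.range = (N.subgroupOf M).map (QuotientGroup.mk' (X.rad M)) := by
            ext x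
            constructor
            · rintro ⟨y, rfl⟩
              obtain ⟨n, rfl⟩ := QuotientGroup.mk_surjective y
              exact ⟨Subgroup.inclusion hNM n, n.2, rfl⟩
            · rintro ⟨n, hn, rfl⟩
              exact ⟨((⟨n.1, hn⟩ : N) : N ⧸ X.rad N), rfl⟩
          exact (mem_of_injective_le f hf hr).2 hY
        have k1 := key N₁ le_sup_left h3
        have k2 := key N₂ le_sup_right h3'
        have n1 : ((N₁.subgroupOf M).map (QuotientGroup.mk' (X.rad M))).Normal :=
          Subgroup.Normal.map inferInstance _ (QuotientGroup.mk'_surjective _)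
        have n2 : ((N₂.subgroupOf M).map (QuotientGroup.mk' (X.rad M))).Normal :=
          Subgroup.Normal.map inferInstance _ (QuotientGroup.mk'_surjective _)
        have h5 := Y.sup _ _ k1 k2
        rw [← Subgroup.map_sup] at h5
        have h6 : N₁.subgroupOf M ⊔ N₂.subgroupOf M = ⊤ := by
          rw [← Subgroup.subgroupOf_sup le_sup_left le_sup_right, Subgroup.subgroupOf_self]
        rw [h6, ← MonoidHom.range_eq_map,
          MonoidHom.range_eq_top.2 (QuotientGroup.mk'_surjective _)] at h5
        exact mem_top_iff.1 h5 }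

lemma mem_mul : (X * Y).Mem G ↔ Finite G ∧ X.NonEmpty ∧ Y.Mem (G ⧸ X.rad G) := Iff.rfl

/-- The Fitting class of finite `p`-groups. -/
def pGroups (p : ℕ) : FittingClass where
  Mem G _ := Finite G ∧ IsPGroup p G
  finite h := h.1
  iso e h := ⟨(by have := h.1; exact Finite.of_equiv _ e.toEquiv), h.2.of_equiv e⟩
  normal N _ h := ⟨(by have := h.1; infer_instance), h.2.to_subgroup N⟩
  sup N₁ N₂ _ _ h₁ h₂ := ⟨inferInstance, h₁.2.to_sup_of_normal_right h₂.2⟩

/-- The Fitting class of finite `p'`-groups. -/
def pPrimeGroups (p : ℕ) [hp : Fact p.Prime] : FittingClass where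
  Mem G _ := Finite G ∧ ¬ p ∣ Nat.card G
  finite h := h.1
  iso e h := ⟨(by have := h.1; exact Finite.of_equiv _ e.toEquiv),
    fun hd => h.2 (by rwa [Nat.card_congr e.toEquiv])⟩
  normal N _ h := ⟨(by have := h.1; infer_instance),
    fun hd => h.2 (hd.trans (Subgroup.card_subgroup_dvd_card N))⟩
  sup N₁ N₂ _ _ h₁ h₂ := ⟨inferInstance, fun hd => by
    have h3 : Nat.card (N₁ ⊔ N₂ : Subgroup _) ∣ Nat.card N₁ * Nat.card N₂ := by
      have h4 := Subgroup.relIndex_mul_relIndex ⊥ N₁ (N₁ ⊔ N₂) bot_le le_sup_left
      rw [Subgroup.relIndex_bot_left, Subgroup.relIndex_bot_left,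
        Subgroup.relIndex_sup_left] at h4
      rw [← h4]
      exact Nat.mul_dvd_mul_left _ (N₁.relIndex_dvd_card N₂)
    rcases (hp.out.dvd_mul).1 (hd.trans h3) with h | h
    · exact h₁.2 h
    · exact h₂.2 h⟩

/-- A Fitting class `F` is local (in the sense of Hartley) if there is a map `h` from primes to
Fitting classes such that `F` consists of the finite groups `G` all of whose prime divisors lie in
`π = {p | h p ≠ ∅}` and which belong to `h(p) N_p E_{p'}` for all `p ∈ π`. -/
def Local (F : FittingClass) : Prop :=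
  ∃ h : ∀ p : ℕ, [Fact p.Prime] → FittingClass, ∀ (G : Type) [Group G],
    F.Mem G ↔ Finite G ∧ (∀ (p : ℕ) [Fact p.Prime], p ∣ Nat.card G → (h p).NonEmpty) ∧
      ∀ (p : ℕ) [Fact p.Prime], (h p).NonEmpty → (h p * pGroups p * pPrimeGroups p).Mem G

/-- `lFit M`, as a class of groups: the intersection of all local Fitting classes containing `M`. -/
def lFit (M : Type) [Group M] (H : Type) [Group H] : Prop :=
  ∀ L : FittingClass, L.Local → L.Mem M → L.Mem H

/-- `R` is a normal subgroup of `G` with `lFit (R ∩ M) = lFit M` for all subnormal subgroups `M`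
of `G`. -/
def PsiSet (G : Type) [Group G] : Set (Subgroup G) :=
  {R | R.Normal ∧ ∀ M : Subgroup G, M.IsSubnormal →
    ∀ (H : Type) [Group H], lFit (R ⊓ M : Subgroup G) H ↔ lFit M H}

/-- `Ψ(G)`: the intersection of all the members of `PsiSet G`.  For finite `G` it is the smallest
member, see `isLeast_Psi`. -/
def Psi (G : Type) [Group G] : Subgroup G := sInf (PsiSet G)

lemma PsiSet_inf {R₁ R₂ : Subgroup G} (h₁ : R₁ ∈ PsiSet G) (h₂ : R₂ ∈ PsiSet G) :
    R₁ ⊓ R₂ ∈ PsiSet G := by
  obtain ⟨n₁, h₁⟩ := h₁
  obtain ⟨n₂, h₂⟩ := h₂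
  refine ⟨inferInstance, fun M hM H _ => ?_⟩
  rw [inf_assoc, h₁ (R₂ ⊓ M) (n₂.isSubnormal.inf hM), h₂ M hM]

lemma isLeast_Psi [Finite G] : IsLeast (PsiSet G) (Psi G) := by
  refine ⟨?_, fun R hR => sInf_le hR⟩
  classical
  have := Fintype.ofFinite (Subgroup G)
  have htop : (⊤ : Subgroup G) ∈ PsiSet G := by
    refine ⟨inferInstance, fun M _ H _ => ?_⟩
    rw [top_inf_eq]
  have key : ∀ s : Finset (Subgroup G), (∀ R ∈ s, R ∈ PsiSet G) → s.inf id ∈ PsiSet G := by
    intro s
    induction s using Finset.induction_on with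
    | empty => intro _; rw [Finset.inf_empty]; exact htop
    | insert N s hN ih =>
      intro h
      rw [Finset.inf_insert]
      exact PsiSet_inf (h N (by simp)) (ih fun R hR => h R (by simp [hR]))
  have h1 := key (Finset.univ.filter fun R => R ∈ PsiSet G) (fun R hR => (Finset.mem_filter.1 hR).2)
  have h2 : (Finset.univ.filter fun R => R ∈ PsiSet G).inf id = Psi G := by
    rw [Psi, Finset.inf_id_eq_sInf]
    congr 1
    ext N
    simp
  rwa [h2] at h1

/-- A Fitting class `F` is saturated if `Ψ(G) ∈ F` implies `G ∈ F` for all finite groups `G`. -/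
def Saturated (F : FittingClass) : Prop :=
  ∀ (G : Type) [Group G] [Finite G], F.Mem (Psi G) → F.Mem G

/-- The class consists of soluble groups. -/
def Soluble (F : FittingClass) : Prop :=
  ∀ (G : Type) [Group G], F.Mem G → Group.IsSolvable G

end FittingClass

end Pool.Agent.Helper46.Fit
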