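import Pool.Agent.Helper46.Fit.Twist2

/-!
Soluble saturated Fitting classes are local.
-/

namespace Pool.Agent.Helper46.Fit

open FittingClass
open scoped commutatorElement

/-- `X₀` is the unique maximal normal subgroup of `X`. -/
def Comono {X : Type} [Group X] (X₀ : Subgroup X) : Prop :=
  X₀.Normal ∧ X₀ ≠ ⊤ ∧ ∀ N : Subgroup X, N.Normal → N ≠ ⊤ → N ≤ X₀

lemma split_or_comono (X : Type) [Group X] [Finite X] :
    (∃ N₁ N₂ : Subgroup X, N₁.Normal ∧ N₂.Normal ∧ N₁ ≠ ⊤ ∧ N₂ ≠ ⊤ ∧ N₁ ⊔ N₂ = ⊤) ∨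
      (∃ X₀ : Subgroup X, Comono X₀) ∨ Subsingleton X := by
  rcases subsingleton_or_nontrivial X with h | h
  · exact Or.inr (Or.inr h)
  obtain ⟨X₀, hX₀⟩ := exists_maximal_of_wellFoundedGT
    (fun M : Subgroup X => M.Normal ∧ M ≠ ⊤) ⟨⊥, inferInstance, bot_ne_top⟩
  have := hX₀.1.1
  by_cases hs : ∃ N : Subgroup X, N.Normal ∧ N ≠ ⊤ ∧ N ⊔ X₀ = ⊤
  · obtain ⟨N, h1, h2, h3⟩ := hs
    exact Or.inl ⟨N, X₀, h1, hX₀.1.1, h2, hX₀.1.2, h3⟩
  · push Not at hs
    refine Or.inr (Or.inl ⟨X₀, hX₀.1.1, hX₀.1.2, fun N hN hNt => ?_⟩)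
    have h1 := hs N hN hNt
    exact le_sup_left.trans (hX₀.2 ⟨inferInstance, h1⟩ le_sup_right)

lemma Comono.isSimple {X : Type} [Group X] {X₀ : Subgroup X} [X₀.Normal] (h : Comono X₀) :
    IsSimpleGroup (X ⧸ X₀) := by
  have hnt : Nontrivial (X ⧸ X₀) := by
    rw [← not_subsingleton_iff_nontrivial]
    intro hs
    exact h.2.1 (QuotientGroup.subsingleton_iff.1 hs)
  refine ⟨fun H hH => ?_⟩
  by_cases ht : H.comap (QuotientGroup.mk' X₀) = ⊤
  · right
    have h1 := congrArg (Subgroup.map (QuotientGroup.mk' X₀)) ht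
    rwa [Subgroup.map_comap_eq_self_of_surjective (QuotientGroup.mk'_surjective _),
      ← MonoidHom.range_eq_map, MonoidHom.range_eq_top.2 (QuotientGroup.mk'_surjective _)] at h1
  · left
    have h1 := h.2.2 _ inferInstance ht
    rw [Subgroup.eq_bot_iff_forall]
    intro x hx
    obtain ⟨g, rfl⟩ := QuotientGroup.mk_surjective x
    exact (QuotientGroup.eq_one_iff g).2 (h1 hx)

lemma Comono.card_prime {X : Type} [Group X] [Finite X] {X₀ : Subgroup X} [X₀.Normal]
    (h : Comono X₀) [hs : Group.IsSolvable (X ⧸ X₀)] : (Nat.card (X ⧸ X₀)).Prime := by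
  have h1 := h.isSimple
  have h2 := IsSimpleGroup.comm_iff_isSolvable.2 hs
  let _ : CommGroup (X ⧸ X₀) := { (inferInstance : Group (X ⧸ X₀)) with mul_comm := h2 }
  exact IsSimpleGroup.prime_card

lemma pow_mem_of_card {X : Type} [Group X] [Finite X] {X₀ : Subgroup X} [X₀.Normal] {q : ℕ}
    (h : Nat.card (X ⧸ X₀) = q) (x : X) : x ^ q ∈ X₀ := by
  rw [← QuotientGroup.eq_one_iff, QuotientGroup.mk_pow, ← h]
  exact pow_card_eq_one'

/-- The data attached to a group with a unique maximal normal subgroup, of prime index `q`. -/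
theorem comono_data {X : Type} [Group X] [Finite X] {X₀ : Subgroup X} [X₀.Normal]
    (hc : Comono X₀) {q : ℕ} [hq : Fact q.Prime] (hcard : Nat.card (X ⧸ X₀) = q) :
    ∃ (L : Subgroup X) (_ : L.Normal) (g : X), L ⊔ Subgroup.zpowers g = ⊤ ∧
      (∃ n : ℕ, g ^ q ^ n = 1) ∧ L ≤ ⁅L, Subgroup.zpowers g⁆ ∧ g ∉ X₀ ∧
      IsPGroup q (X ⧸ L) ∧ ∀ (R : Subgroup X) [R.Normal], IsPGroup q (X ⧸ R) → L ≤ R := by
  -- `L`
  let P : Subgroup X → Prop := fun N => N.Normal ∧ ∀ x : X, ∃ k : ℕ, x ^ q ^ k ∈ N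
  obtain ⟨L, hL⟩ := exists_minimal_of_wellFoundedLT P ⟨⊤, inferInstance, fun x => ⟨0, trivial⟩⟩
  have hLn := hL.1.1
  have hleast : ∀ (R : Subgroup X) [R.Normal], IsPGroup q (X ⧸ R) → L ≤ R := by
    intro R _ hR
    have h1 : P (L ⊓ R) := by
      refine ⟨inferInstance, fun x => ?_⟩
      obtain ⟨k, hk⟩ := hL.1.2 x
      obtain ⟨l, hl⟩ := hR (x : X ⧸ R)
      rw [← QuotientGroup.mk_pow, QuotientGroup.eq_one_iff] at hl
      refine ⟨k + l, Subgroup.mem_inf.2 ⟨?_, ?_⟩⟩
      · rw [pow_add, pow_mul]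
        exact L.pow_mem hk _
      · rw [add_comm, pow_add, pow_mul]
        exact R.pow_mem hl _
    exact (hL.2 h1 inf_le_left).trans inf_le_right
  have hLq : IsPGroup q (X ⧸ L) := by
    intro x
    obtain ⟨y, rfl⟩ := QuotientGroup.mk_surjective x
    obtain ⟨k, hk⟩ := hL.1.2 y
    exact ⟨k, by rw [← QuotientGroup.mk_pow]; exact (QuotientGroup.eq_one_iff _).2 hk⟩
  -- `g`
  obtain ⟨x, hx⟩ : ∃ x, x ∉ X₀ := by
    by_contra hcon
    push Not at hcon
    exact hc.2.1 (eq_top_iff.2 fun x _ => hcon x)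
  obtain ⟨a, m, hm, hord⟩ := Nat.exists_eq_pow_mul_and_not_dvd (orderOf_pos x).ne' q hq.out.ne_one
  set g := x ^ m with hg
  have hgq : g ^ q ^ a = 1 := by
    rw [hg, ← pow_mul, mul_comm, ← hord, pow_orderOf_eq_one]
  have hgX₀ : g ∉ X₀ := by
    intro h1
    have h2 := pow_mem_of_card hcard x
    have h3 : Nat.Coprime q m := (Nat.Prime.coprime_iff_not_dvd hq.out).2 hm
    have h4 : IsCoprime (q : ℤ) (m : ℤ) := Nat.isCoprime_iff_coprime.2 h3
    obtain ⟨u, v, huv⟩ := h4
    apply hx
    have h5 : x = (x ^ q) ^ u * (x ^ m) ^ v := by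
      rw [← zpow_natCast, ← zpow_natCast, ← zpow_mul, ← zpow_mul, ← zpow_add, mul_comm (q : ℤ) u,
        mul_comm (m : ℤ) v, huv, zpow_one]
    rw [h5]
    exact X₀.mul_mem (X₀.zpow_mem h2 u) (X₀.zpow_mem h1 v)
  have hLtop : L ⊔ Subgroup.zpowers g = ⊤ := by
    by_contra hne
    have hne' : (Subgroup.zpowers g).map (QuotientGroup.mk' L) ≠ ⊤ := by
      intro h1
      apply hne
      have h2 := congrArg (Subgroup.comap (QuotientGroup.mk' L)) h1
      rw [Subgroup.comap_top, Subgroup.comap_map_eq, QuotientGroup.ker_mk'] at h2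
      rw [sup_comm]
      exact h2
    obtain ⟨M, hM, hgM⟩ := (eq_top_or_exists_le_coatom
      ((Subgroup.zpowers g).map (QuotientGroup.mk' L))).resolve_left hne'
    have hnil : Group.IsNilpotent (X ⧸ L) := hLq.isNilpotent
    have hall : Group.IsNilpotent (X ⧸ L) ↔ ∀ H : Subgroup (X ⧸ L), IsCoatom H → H.Normal :=
      (Group.isNilpotent_of_finite_tfae (G := X ⧸ L)).out 0 2
    have hMn : M.Normal := hall.1 hnil M hM
    have hMX : M.comap (QuotientGroup.mk' L) ≤ X₀ := by
      refine hc.2.2 _ inferInstance fun h1 => ?_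
      have h2 := congrArg (Subgroup.map (QuotientGroup.mk' L)) h1
      rw [Subgroup.map_comap_eq_self_of_surjective (QuotientGroup.mk'_surjective _),
        ← MonoidHom.range_eq_map, MonoidHom.range_eq_top.2 (QuotientGroup.mk'_surjective _)] at h2
      exact hM.1 h2
    apply hgX₀
    apply hMX
    exact hgM (Subgroup.mem_map_of_mem _ (Subgroup.mem_zpowers g))
  refine ⟨L, hLn, g, hLtop, ⟨a, hgq⟩, ?_, hgX₀, hLq, hleast⟩
  -- commutator
  set D : Subgroup X := ⁅L, Subgroup.zpowers g⁆ with hD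
  have hDn : D.Normal := by
    rw [← Subgroup.normalizer_eq_top_iff, eq_top_iff, ← hLtop]
    exact sup_le (Subgroup.normalizer_commutator_ge_left _ _)
      (Subgroup.normalizer_commutator_ge_right _ _)
  have hEn : (D ⊔ Subgroup.zpowers g).Normal := by
    rw [← Subgroup.normalizer_eq_top_iff, eq_top_iff, ← hLtop]
    refine sup_le ?_ (le_sup_right.trans Subgroup.le_normalizer)
    rw [Subgroup.le_normalizer_iff]
    intro l hl k hk
    rw [Subgroup.mem_sup_of_normal_left] at hk
    obtain ⟨d, hd, z, hz, rfl⟩ := hk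
    have h1 : l * d * l⁻¹ ∈ D := hDn.conj_mem d hd l
    have h2 : ⁅l, z⁆ ∈ D := Subgroup.commutator_mem_commutator hl hz
    have e : l * (d * z) * l⁻¹ = (l * d * l⁻¹) * (⁅l, z⁆ * z) := by
      rw [commutatorElement_def]; group
    rw [e]
    exact Subgroup.mul_mem _ (Subgroup.mem_sup_left h1)
      (Subgroup.mul_mem _ (Subgroup.mem_sup_left h2) (Subgroup.mem_sup_right hz))
  have hEtop : D ⊔ Subgroup.zpowers g = ⊤ := by
    by_contra hne
    exact hgX₀ (hc.2.2 _ hEn hne (Subgroup.mem_sup_right (Subgroup.mem_zpowers g)))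
  exact hleast D (isPGroup_quot hEtop ⟨a, hgq⟩)

/-- The Fitting class of all finite groups. -/
def allFinite : FittingClass where
  Mem G _ := Finite G
  finite h := h
  iso e h := by have := h; exact Finite.of_equiv _ e.toEquiv
  normal N _ h := by have := h; infer_instance
  sup N₁ N₂ _ _ _ _ := inferInstance

/-- The local function. -/
def U (F : FittingClass) (q : ℕ) [_hq : Fact q.Prime] : FittingClass where
  Mem L _ := ∃ (W : Type) (_ : Group W) (_ : Finite W) (K : Subgroup W) (h : W),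
    F.Mem (K ⊔ Subgroup.zpowers h : Subgroup W) ∧ h ∈ Subgroup.normalizer (K : Set W) ∧
    (∃ n : ℕ, h ^ q ^ n = 1) ∧ K ≤ ⁅K, Subgroup.zpowers h⁆ ∧ h ≠ 1 ∧
    ∀ X : FittingClass, X.Mem K → X.Mem L
  finite := by
    rintro G _ ⟨W, _, _, K, h, -, -, -, -, -, hX⟩
    exact hX allFinite (show Finite K from inferInstance)
  iso := by
    rintro G H _ _ e ⟨W, _, hW, K, h, h1, h2, h3, h4, h5, hX⟩
    exact ⟨W, _, hW, K, h, h1, h2, h3, h4, h5, fun X hK => X.iso e (hX X hK)⟩
  normal := by
    rintro G _ N _ ⟨W, _, hW, K, h, h1, h2, h3, h4, h5, hX⟩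
    exact ⟨W, _, hW, K, h, h1, h2, h3, h4, h5, fun X hK => X.normal N (hX X hK)⟩
  sup := by
    rintro G _ _ N₁ N₂ _ _ ⟨W, _, _, K, h, h1, h2, h3, h4, h5, hX⟩
      ⟨W', _, _, K', h', h1', h2', h3', h4', h5', hX'⟩
    have hcomm : ∀ a ∈ ((K ⊔ Subgroup.zpowers h).prod (K' ⊔ Subgroup.zpowers h') :
        Subgroup (W × W')), ∀ b ∈ ((K ⊔ Subgroup.zpowers h).prod (K' ⊔ Subgroup.zpowers h') :
        Subgroup (W × W')), a * b * a⁻¹ * b⁻¹ ∈ (K.prod K' : Subgroup (W × W')) := by
      rintro ⟨a, v⟩ ⟨ha, hv⟩ ⟨b, w⟩ ⟨hb, hw⟩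
      exact ⟨comm_mem_ambient h2 a ha b hb, comm_mem_ambient h2' v hv w hw⟩
    have hle : (K.prod K' ⊔ Subgroup.zpowers (h, h') : Subgroup (W × W')) ≤
        (K ⊔ Subgroup.zpowers h).prod (K' ⊔ Subgroup.zpowers h') := by
      refine sup_le (Subgroup.prod_mono le_sup_left le_sup_left) ?_
      rw [Subgroup.zpowers_le]
      exact ⟨Subgroup.mem_sup_right (Subgroup.mem_zpowers _),
        Subgroup.mem_sup_right (Subgroup.mem_zpowers _)⟩
    refine ⟨W × W', inferInstance, inferInstance, K.prod K', (h, h'), ?_, ?_, ?_, ?_, ?_, ?_⟩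
    · exact mem_of_le_normalizer hle (le_normalizer_of_comm hcomm le_sup_left hle)
        (mem_prod_subgroup h1 h1')
    · rw [Subgroup.mem_normalizer_iff] at h2 h2' ⊢
      rintro ⟨a, b⟩
      exact and_congr (h2 a) (h2' b)
    · obtain ⟨n, hn, hn'⟩ := pow_q_pow (q := q) h3 h3'
      exact ⟨n, Prod.ext hn hn'⟩
    · rintro ⟨a, b⟩ ⟨ha, hb⟩
      have c1 : K ≤ (⁅(K.prod K' : Subgroup (W × W')),
          Subgroup.zpowers ((h, h') : W × W')⁆).comap (MonoidHom.inl W W') := by
        refine h4.trans ?_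
        rw [Subgroup.commutator_le]
        intro l hl z hz
        obtain ⟨i, rfl⟩ := Subgroup.mem_zpowers_iff.1 hz
        have h6 : ⁅((l, 1) : W × W'), ((h, h') : W × W') ^ i⁆ ∈
            ⁅(K.prod K' : Subgroup (W × W')), Subgroup.zpowers ((h, h') : W × W')⁆ :=
          Subgroup.commutator_mem_commutator ⟨hl, Subgroup.one_mem _⟩
            (Subgroup.zpow_mem _ (Subgroup.mem_zpowers _) i)
        change ((⁅l, h ^ i⁆, 1) : W × W') ∈
          ⁅(K.prod K' : Subgroup (W × W')), Subgroup.zpowers ((h, h') : W × W')⁆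
        convert h6 using 1
        rw [commutatorElement_def (l : W), commutatorElement_def]
        refine Prod.ext ?_ ?_
        · simp
        · simp
      have c2 : K' ≤ (⁅(K.prod K' : Subgroup (W × W')),
          Subgroup.zpowers ((h, h') : W × W')⁆).comap (MonoidHom.inr W W') := by
        refine h4'.trans ?_
        rw [Subgroup.commutator_le]
        intro l hl z hz
        obtain ⟨i, rfl⟩ := Subgroup.mem_zpowers_iff.1 hz
        have h6 : ⁅((1, l) : W × W'), ((h, h') : W × W') ^ i⁆ ∈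
            ⁅(K.prod K' : Subgroup (W × W')), Subgroup.zpowers ((h, h') : W × W')⁆ :=
          Subgroup.commutator_mem_commutator ⟨Subgroup.one_mem _, hl⟩
            (Subgroup.zpow_mem _ (Subgroup.mem_zpowers _) i)
        change ((1, ⁅l, h' ^ i⁆) : W × W') ∈
          ⁅(K.prod K' : Subgroup (W × W')), Subgroup.zpowers ((h, h') : W × W')⁆
        convert h6 using 1
        rw [commutatorElement_def (l : W'), commutatorElement_def]
        refine Prod.ext ?_ ?_
        · simp
        · simp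
      have e : ((a, b) : W × W') = (a, 1) * (1, b) := by simp
      rw [e]
      exact Subgroup.mul_mem _ (c1 ha) (c2 hb)
    · intro h6
      exact h5 (congrArg Prod.fst h6)
    · intro X hXK
      have k1 : X.Mem K := by
        have n1 : X.Mem (K.prod (⊥ : Subgroup W')) :=
          mem_of_le_normalizer (M := K.prod K') (Subgroup.prod_mono le_rfl bot_le) (by
            rw [Subgroup.le_normalizer_iff]
            rintro ⟨a, b⟩ ⟨ha, hb⟩ ⟨c, d⟩ ⟨hc, hd⟩
            refine ⟨K.mul_mem (K.mul_mem ha hc) (K.inv_mem ha), ?_⟩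
            have hd' : d = 1 := Subgroup.mem_bot.1 hd
            subst hd'
            simp) hXK
        have e : K.prod (⊥ : Subgroup W') = K.map (MonoidHom.inl W W') := by
          ext x
          constructor
          · rintro ⟨g1, g2⟩
            exact ⟨x.1, g1, Prod.ext rfl (Subgroup.mem_bot.1 g2).symm⟩
          · rintro ⟨w, hw, rfl⟩
            exact ⟨hw, rfl⟩
        rw [e, mem_map_iff _ _ (fun a b h => congrArg Prod.fst h)] at n1
        exact n1
      have k2 : X.Mem K' := by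
        have n1 : X.Mem ((⊥ : Subgroup W).prod K') :=
          mem_of_le_normalizer (M := K.prod K') (Subgroup.prod_mono bot_le le_rfl) (by
            rw [Subgroup.le_normalizer_iff]
            rintro ⟨a, b⟩ ⟨ha, hb⟩ ⟨c, d⟩ ⟨hc, hd⟩
            refine ⟨?_, K'.mul_mem (K'.mul_mem hb hd) (K'.inv_mem hb)⟩
            have hc' : c = 1 := Subgroup.mem_bot.1 hc
            subst hc'
            simp) hXK
        have e : (⊥ : Subgroup W).prod K' = K'.map (MonoidHom.inr W W') := by
          ext x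
          constructor
          · rintro ⟨g1, g2⟩
            exact ⟨x.2, g2, Prod.ext (Subgroup.mem_bot.1 g1).symm rfl⟩
          · rintro ⟨w, hw, rfl⟩
            exact ⟨rfl, hw⟩
        rw [e, mem_map_iff _ _ (fun a b h => congrArg Prod.snd h)] at n1
        exact n1
      exact X.sup N₁ N₂ (hX X k1) (hX' X k2)

lemma pPrime_nonEmpty (p : ℕ) [hp : Fact p.Prime] : (pPrimeGroups p).NonEmpty := by
  have h : Finite Unit ∧ ¬ p ∣ Nat.card Unit := by
    refine ⟨inferInstance, ?_⟩
    rw [Nat.card_unique]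
    exact fun h => hp.out.one_lt.ne' (Nat.dvd_one.1 h)
  exact ⟨Unit, inferInstance, h⟩

lemma card_sup_dvd {X : Type} [Group X] {N₁ N₂ : Subgroup X} [N₁.Normal] [N₂.Normal]
    (h : N₁ ⊔ N₂ = ⊤) : Nat.card X ∣ Nat.card N₁ * Nat.card N₂ := by
  have h4 := Subgroup.relIndex_mul_relIndex ⊥ N₁ (N₁ ⊔ N₂) bot_le le_sup_left
  rw [Subgroup.relIndex_bot_left, Subgroup.relIndex_bot_left,
    Subgroup.relIndex_sup_left, h] at h4
  have h5 : Nat.card (⊤ : Subgroup X) = Nat.card X := Nat.card_congr Subgroup.topEquiv.toEquiv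
  rw [← h5, ← h4]
  exact Nat.mul_dvd_mul_left _ (N₁.relIndex_dvd_card N₂)

lemma card_lt_of_ne_top {X : Type} [Group X] [Finite X] {N : Subgroup X} (h : N ≠ ⊤) :
    Nat.card N < Nat.card X := by
  refine lt_of_le_of_ne (Nat.card_le_card_of_injective _ (Subgroup.subtype_injective N)) ?_
  intro h1
  exact h (Subgroup.eq_top_of_card_eq N h1)

theorem mainA {F : FittingClass} (hFs : F.Soluble) (n : ℕ) : ∀ (X : Type) [Group X] [Finite X],
    Nat.card X = n → F.Mem X → ∀ (q : ℕ) [Fact q.Prime],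
    (q ∣ Nat.card X → (U F q).NonEmpty) ∧
      ((U F q).NonEmpty → (U F q * pGroups q * pPrimeGroups q).Mem X) := by
  induction n using Nat.strong_induction_on with
  | _ n ih =>
    intro X _ _ hn hX q hq
    rcases split_or_comono X with ⟨N₁, N₂, n₁, n₂, t₁, t₂, hsup⟩ | ⟨X₀, hc⟩ | hs
    · have i₁ := ih _ (hn ▸ card_lt_of_ne_top t₁) N₁ rfl (F.normal N₁ hX) q
      have i₂ := ih _ (hn ▸ card_lt_of_ne_top t₂) N₂ rfl (F.normal N₂ hX) q
      refine ⟨fun hd => ?_, fun hne => ?_⟩
      · rcases (hq.out.dvd_mul).1 (hd.trans (card_sup_dvd hsup)) with h | h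
        · exact i₁.1 h
        · exact i₂.1 h
      · have h1 := (U F q * pGroups q * pPrimeGroups q).sup N₁ N₂ (i₁.2 hne) (i₂.2 hne)
        rw [hsup] at h1
        exact mem_top_iff.1 h1
    · have hX₀n := hc.1
      have hXs := hFs X hX
      have hsol : Group.IsSolvable (X ⧸ X₀) :=
        Group.isSolvable_of_surjective (QuotientGroup.mk'_surjective X₀)
      have hprime := hc.card_prime
      have i₀ := ih _ (hn ▸ card_lt_of_ne_top hc.2.1) X₀ rfl (F.normal X₀ hX) q
      by_cases hqr : Nat.card (X ⧸ X₀) = q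
      · obtain ⟨L, hLn, g, h1, h2, h3, h4, h5, h6⟩ := comono_data hc hqr
        have hUL : (U F q).Mem L := by
          refine ⟨X, _, inferInstance, L, g, ?_, ?_, h2, h3, ?_, fun _ h => h⟩
          · rw [h1]; exact mem_top_iff.2 hX
          · rw [Subgroup.normalizer_eq_top_iff.2 hLn]; trivial
          · rintro rfl
            exact h4 X₀.one_mem
        refine ⟨fun _ => nonEmpty_of_mem hUL, fun _ => ?_⟩
        exact mem_mul_pPrime_of_mem (mem_mul_pGroups_of L hUL h5)
      · have hqn : ¬ q ∣ Nat.card (X ⧸ X₀) := by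
          intro hd
          exact hqr ((Nat.prime_dvd_prime_iff_eq hq.out hprime).1 hd).symm
        refine ⟨fun hd => ?_, fun hne => ?_⟩
        · rw [Subgroup.card_eq_card_quotient_mul_card_subgroup X₀] at hd
          rcases (hq.out.dvd_mul).1 hd with h | h
          · exact absurd h hqn
          · exact i₀.1 h
        · exact mem_mul_pPrime_of_normal X₀ (i₀.2 hne) hqn
    · refine ⟨fun hd => ?_, fun hne => ?_⟩
      · rw [Nat.card_of_subsingleton (1 : X)] at hd
        exact absurd (Nat.dvd_one.1 hd) hq.out.one_lt.ne'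
      · exact mem_of_subsingleton (mul_nonEmpty (mul_nonEmpty hne (pGroups_nonEmpty q))
          (pPrime_nonEmpty q)) X

theorem mainB {F : FittingClass} (hF : F.NonEmpty) (hFs : F.Soluble) (hsat : F.Saturated)
    (n : ℕ) : ∀ (G : Type) [Group G] [Finite G],
    Nat.card G = n → (∀ (p : ℕ) [Fact p.Prime], p ∣ Nat.card G → (U F p).NonEmpty) →
    (∀ (p : ℕ) [Fact p.Prime], (U F p).NonEmpty →
      (U F p * pGroups p * pPrimeGroups p).Mem G) → F.Mem G := by
  induction n using Nat.strong_induction_on with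
  | _ n ih =>
    intro G _ _ hn hG1 hG2
    have hnorm : ∀ (N : Subgroup G) [N.Normal], N ≠ ⊤ → F.Mem N := by
      intro N _ hN
      refine ih _ (hn ▸ card_lt_of_ne_top hN) N rfl ?_ ?_
      · intro p _ hd
        exact hG1 p (hd.trans (Subgroup.card_subgroup_dvd_card N))
      · intro p _ hne
        exact FittingClass.normal _ N (hG2 p hne)
    rcases split_or_comono G with ⟨N₁, N₂, n₁, n₂, t₁, t₂, hsup⟩ | ⟨G₀, hc⟩ | hs
    · have h1 := F.sup N₁ N₂ (hnorm N₁ t₁) (hnorm N₂ t₂)
      rw [hsup] at h1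
      exact mem_top_iff.1 h1
    · have hG₀n := hc.1
      have hsimple := hc.isSimple
      have hcard1 : Nat.card (G ⧸ G₀) ≠ 1 := by
        have := Finite.one_lt_card (α := G ⧸ G₀)
        omega
      obtain ⟨p, hp, hpd⟩ := Nat.exists_prime_and_dvd hcard1
      have hpf := Fact.mk hp
      have hne : (U F p).NonEmpty := hG1 p (hpd.trans (Subgroup.card_quotient_dvd_card _))
      have h1 := hG2 p hne
      rw [mem_mul_pPrime] at h1
      obtain ⟨hne2, h1⟩ := h1
      have hPtop : (U F p * pGroups p).rad G = ⊤ := by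
        by_contra hcon
        have h2 := hc.2.2 _ rad_normal hcon
        apply h1
        refine hpd.trans ?_
        exact Subgroup.index_dvd_of_le h2
      have h2 : (U F p * pGroups p).Mem G := (rad_eq_top_iff hne2).1 hPtop
      rw [mem_mul_pGroups] at h2
      obtain ⟨-, h2⟩ := h2
      by_cases hRtop : (U F p).rad G = ⊤
      · have h3 : (U F p).Mem G := (rad_eq_top_iff hne).1 hRtop
        obtain ⟨W, _, _, K, h, k1, k2, -, -, -, k3⟩ := h3
        refine k3 F (mem_of_le_normalizer le_sup_left ?_ k1)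
        refine sup_le Subgroup.le_normalizer ?_
        rw [Subgroup.zpowers_le]
        exact k2
      · have hRG₀ := hc.2.2 _ rad_normal hRtop
        have hG₀p : IsPGroup p (G ⧸ G₀) := isPGroup_quot_of_le hRG₀ h2
        have hnil : Group.IsNilpotent (G ⧸ G₀) := hG₀p.isNilpotent
        have hprime := hc.card_prime
        have hcardp : Nat.card (G ⧸ G₀) = p :=
          ((Nat.prime_dvd_prime_iff_eq hp hprime).1 hpd).symm
        obtain ⟨L, hLn, g, e1, e2, e3, e4, e5, e6⟩ := comono_data hc hcardp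
        have hLR : L ≤ (U F p).rad G := e6 _ h2
        have hUL : (U F p).Mem L := mem_of_le_normal hLR (mem_rad hne)
        have hL0 : F.Mem (L ⊔ Subgroup.zpowers (g ^ p) : Subgroup G) := by
          have hn0 : (L ⊔ Subgroup.zpowers (g ^ p)).Normal :=
            normal_of_comm_mem (comm_mem e1) le_sup_left
          apply hnorm
          intro htop
          apply hc.2.1
          rw [eq_top_iff, ← htop]
          refine sup_le (hLR.trans hRG₀) ?_
          rw [Subgroup.zpowers_le]
          exact pow_mem_of_card hcardp g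
        obtain ⟨W, _, _, K, h, k1, k2, k3, k4, k5, k6⟩ := hUL
        -- pass to the whole group
        have hTn : K ⊔ Subgroup.zpowers h ≤ Subgroup.normalizer (K : Set W) :=
          sup_le Subgroup.le_normalizer (by rw [Subgroup.zpowers_le]; exact k2)
        have hK'n : (K.subgroupOf (K ⊔ Subgroup.zpowers h)).Normal :=
          Subgroup.normal_subgroupOf_of_le_normalizer hTn
        have hhT : h ∈ K ⊔ Subgroup.zpowers h := Subgroup.mem_sup_right (Subgroup.mem_zpowers h)
        have hinj := Subgroup.subtype_injective (K ⊔ Subgroup.zpowers h)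
        have eK : (K.subgroupOf (K ⊔ Subgroup.zpowers h)).map
            (K ⊔ Subgroup.zpowers h).subtype = K := by
          rw [Subgroup.subgroupOf_map_subtype, inf_of_le_left le_sup_left]
        refine key_step (q := p) hsat hFs L g e1 e2 e3 hL0
          (K.subgroupOf (K ⊔ Subgroup.zpowers h))
          (⟨h, hhT⟩ : (K ⊔ Subgroup.zpowers h : Subgroup W)) ?_ ?_ ?_ ?_ k1 ?_
        · apply Subgroup.map_injective hinj
          rw [Subgroup.map_sup, eK, MonoidHom.map_zpowers, ← MonoidHom.range_eq_map,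
            Subgroup.range_subtype]
          rfl
        · obtain ⟨m, hm⟩ := k3
          exact ⟨m, Subtype.ext hm⟩
        · rw [← Subgroup.map_le_map_iff_of_injective hinj, Subgroup.map_commutator, eK,
            MonoidHom.map_zpowers]
          exact k4
        · intro hh
          exact k5 (congrArg Subtype.val hh)
        · intro X hX
          apply k6
          rw [← mem_map_iff _ _ hinj, eK] at hX
          exact hX
    · exact mem_of_subsingleton hF G

/-- Every nonempty soluble saturated Fitting class is local. -/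
theorem local_of_saturated (F : FittingClass) (hF : F.NonEmpty) (hFs : F.Soluble)
    (hsat : F.Saturated) : F.Local := by
  refine ⟨fun q _ => U F q, fun G _ => ⟨fun hG => ?_, fun ⟨h1, h2, h3⟩ => ?_⟩⟩
  · have := F.finite hG
    refine ⟨this, fun p _ hd => ?_, fun p _ hne => ?_⟩
    · exact (mainA hFs _ G rfl hG p).1 hd
    · exact (mainA hFs _ G rfl hG p).2 hne
  · exact mainB hF hFs hsat _ G rfl h2 h3

/-- Sanity check (known): every local Fitting class is saturated. -/
theorem saturated_of_local (F : FittingClass) (hF : F.Local) : F.Saturated := by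
  intro G _ _ h
  have h1 := (isLeast_Psi (G := G)).1.2 ⊤ (Subgroup.Normal.isSubnormal inferInstance) G
  rw [inf_top_eq] at h1
  exact h1.2 (fun L _ hL => mem_top_iff.1 hL) F hF h

end Pool.Agent.Helper46.Fit
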