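import Pool.Agent.Helper46.Fit.Basic
import Pool.Agent.Helper46.Form.Bdd

/-!
The twisted wreath product argument.
-/

namespace Pool.Agent.Helper46.Fit

open FittingClass
open Pool.Agent.Helper46.Form (Wr Zp Zp_pow card_Zp)

namespace FittingClass

variable {F X Y : FittingClass} {G H W : Type} [Group G] [Group H] [Group W]

lemma mem_prod (hG : F.Mem G) (hH : F.Mem H) : F.Mem (G × H) := by
  have := F.finite hG
  have := F.finite hH
  have h1 : F.Mem ((⊤ : Subgroup G).map (MonoidHom.inl G H)) :=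
    (mem_map_iff _ _ (fun a b h => congrArg Prod.fst h)).2 (mem_top_iff.2 hG)
  have h2 : F.Mem ((⊤ : Subgroup H).map (MonoidHom.inr G H)) :=
    (mem_map_iff _ _ (fun a b h => congrArg Prod.snd h)).2 (mem_top_iff.2 hH)
  have e1 : (⊤ : Subgroup G).map (MonoidHom.inl G H) = (⊤ : Subgroup G).prod ⊥ := by
    ext x
    constructor
    · rintro ⟨g, _, rfl⟩
      exact ⟨trivial, rfl⟩
    · rintro ⟨_, h⟩
      exact ⟨x.1, trivial, Prod.ext rfl (Subgroup.mem_bot.1 h).symm⟩
  have e2 : (⊤ : Subgroup H).map (MonoidHom.inr G H) = (⊥ : Subgroup G).prod ⊤ := by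
    ext x
    constructor
    · rintro ⟨g, _, rfl⟩
      exact ⟨rfl, trivial⟩
    · rintro ⟨h, _⟩
      exact ⟨x.2, trivial, Prod.ext (Subgroup.mem_bot.1 h).symm rfl⟩
  rw [e1] at h1
  rw [e2] at h2
  have h3 := F.sup _ _ h1 h2
  have h4 : (⊤ : Subgroup G).prod ⊥ ⊔ (⊥ : Subgroup G).prod (⊤ : Subgroup H) = ⊤ := by
    rw [eq_top_iff]
    rintro ⟨a, b⟩ _
    have : ((a, b) : G × H) = (a, 1) * (1, b) := by simp
    rw [this]
    refine Subgroup.mul_mem _ (Subgroup.mem_sup_left ?_) (Subgroup.mem_sup_right ?_)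
    · exact ⟨trivial, rfl⟩
    · exact ⟨rfl, trivial⟩
  rw [h4] at h3
  exact mem_top_iff.1 h3

lemma mem_prod_subgroup {A : Subgroup G} {B : Subgroup H} (hA : F.Mem A) (hB : F.Mem B) :
    F.Mem (A.prod B) :=
  F.iso (A.prodEquiv B).symm (mem_prod hA hB)

lemma mem_pow_fin (hH : F.Mem H) (n : ℕ) : F.Mem (Fin n → H) := by
  induction n with
  | zero => exact mem_of_subsingleton (nonEmpty_of_mem hH) _
  | succ n ih =>
    refine F.iso ?_ (mem_prod hH ih)
    exact
      { toFun := fun p => Fin.cons p.1 p.2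
        invFun := fun f => (f 0, fun i => f i.succ)
        left_inv := fun p => by simp
        right_inv := fun f => by
          ext i
          refine Fin.cases ?_ (fun i => ?_) i <;> simp
        map_mul' := fun a b => by
          ext i
          refine Fin.cases ?_ (fun i => ?_) i <;> simp }

lemma mem_pow {ι : Type} [Finite ι] (hH : F.Mem H) : F.Mem (ι → H) := by
  obtain ⟨n, ⟨e⟩⟩ := Finite.exists_equiv_fin ι
  refine F.iso ?_ (mem_pow_fin hH n)
  exact
    { toFun := fun f i => f (e i)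
      invFun := fun f i => f (e.symm i)
      left_inv := fun f => by ext; simp
      right_inv := fun f => by ext; simp
      map_mul' := fun a b => by ext; simp }

lemma mem_base {T : Type} [Group T] [Finite T] (K : Subgroup H) (hK : F.Mem K) :
    F.Mem (Wr.base K : Subgroup (Wr H T)) := by
  refine F.iso ?_ (mem_pow (ι := T) hK)
  exact
    { toFun := fun f => ⟨⟨fun x => f x, 1⟩, rfl, fun x => (f x).2⟩
      invFun := fun w x => ⟨w.1.f x, w.2.2 x⟩
      left_inv := fun f => rfl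
      right_inv := fun w => by
        apply Subtype.ext
        refine Wr.ext rfl w.2.1.symm
      map_mul' := fun a b => by
        apply Subtype.ext
        refine Wr.ext (funext fun x => ?_) ?_
        · simp
        · simp }

end FittingClass

lemma le_normalizer_of_comm {W : Type} [Group W] {K₁ N M : Subgroup W}
    (h : ∀ a ∈ M, ∀ b ∈ M, a * b * a⁻¹ * b⁻¹ ∈ K₁) (hKN : K₁ ≤ N) (hNM : N ≤ M) :
    M ≤ Subgroup.normalizer (N : Set W) := by
  rw [Subgroup.le_normalizer_iff]
  intro m hm n hn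
  have h1 := N.mul_mem (hKN (h m hm n (hNM hn))) hn
  rwa [inv_mul_cancel_right] at h1

lemma comm_mem_ambient {W : Type} [Group W] {K : Subgroup W} {y : W}
    (hn : y ∈ Subgroup.normalizer (K : Set W)) :
    ∀ a ∈ K ⊔ Subgroup.zpowers y, ∀ b ∈ K ⊔ Subgroup.zpowers y, a * b * a⁻¹ * b⁻¹ ∈ K := by
  intro a ha b hb
  have hYn : K ⊔ Subgroup.zpowers y ≤ Subgroup.normalizer (K : Set W) :=
    sup_le Subgroup.le_normalizer (by rw [Subgroup.zpowers_le]; exact hn)
  have hK'n : (K.subgroupOf (K ⊔ Subgroup.zpowers y)).Normal :=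
    Subgroup.normal_subgroupOf_of_le_normalizer hYn
  have hy : y ∈ K ⊔ Subgroup.zpowers y := Subgroup.mem_sup_right (Subgroup.mem_zpowers y)
  have htop : K.subgroupOf (K ⊔ Subgroup.zpowers y) ⊔
      Subgroup.zpowers (⟨y, hy⟩ : (K ⊔ Subgroup.zpowers y : Subgroup W)) = ⊤ := by
    apply Subgroup.map_injective (Subgroup.subtype_injective (K ⊔ Subgroup.zpowers y))
    rw [Subgroup.map_sup, Subgroup.subgroupOf_map_subtype, inf_of_le_left le_sup_left,
      MonoidHom.map_zpowers, ← MonoidHom.range_eq_map, Subgroup.range_subtype]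
    rfl
  exact comm_mem htop ⟨a, ha⟩ ⟨b, hb⟩

/-- Ambient version of `star`. -/
theorem star_ambient {F : FittingClass} (hsat : F.Saturated) {W : Type} [Group W] [Finite W]
    {q : ℕ} [hq : Fact q.Prime] (K : Subgroup W) (y : W)
    (hn : y ∈ Subgroup.normalizer (K : Set W)) (hy : ∃ n : ℕ, y ^ q ^ n = 1)
    (hK : K ≤ ⁅K, Subgroup.zpowers y⁆) (hsol : Group.IsSolvable K) (hyq : y ^ q ≠ 1)
    (h0 : F.Mem (K ⊔ Subgroup.zpowers (y ^ q) : Subgroup W))
    (hcond : ∀ h : FittingClass, h.NonEmpty →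
      (h * pGroups q * pPrimeGroups q).Mem (K ⊔ Subgroup.zpowers (y ^ q) : Subgroup W) →
      h.Mem K) : F.Mem (K ⊔ Subgroup.zpowers y : Subgroup W) := by
  set T : Subgroup W := K ⊔ Subgroup.zpowers y with hT
  have hTn : T ≤ Subgroup.normalizer (K : Set W) :=
    sup_le Subgroup.le_normalizer (by rw [Subgroup.zpowers_le]; exact hn)
  have hK'n : (K.subgroupOf T).Normal := Subgroup.normal_subgroupOf_of_le_normalizer hTn
  have hyT : y ∈ T := Subgroup.mem_sup_right (Subgroup.mem_zpowers y)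
  have hinj := Subgroup.subtype_injective T
  have eK : (K.subgroupOf T).map T.subtype = K := by
    rw [Subgroup.subgroupOf_map_subtype, inf_of_le_left le_sup_left]
  have eY₀ : (K.subgroupOf T ⊔ Subgroup.zpowers ((⟨y, hyT⟩ : T) ^ q)).map T.subtype =
      K ⊔ Subgroup.zpowers (y ^ q) := by
    rw [Subgroup.map_sup, eK, MonoidHom.map_zpowers]
    rfl
  refine star (q := q) hsat (K.subgroupOf T) (⟨y, hyT⟩ : T) ?_ ?_ ?_ ?_ ?_ ?_ ?_
  · apply Subgroup.map_injective hinj
    rw [Subgroup.map_sup, eK, MonoidHom.map_zpowers, ← MonoidHom.range_eq_map,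
      Subgroup.range_subtype]
    rfl
  · obtain ⟨n, hn⟩ := hy
    exact ⟨n, Subtype.ext hn⟩
  · rw [← Subgroup.map_le_map_iff_of_injective hinj, Subgroup.map_commutator, eK,
      MonoidHom.map_zpowers]
    exact hK
  · refine Group.isSolvable_of_isSolvable_injective
      (f := (T.subtype.comp (K.subgroupOf T).subtype).codRestrict K fun x => x.2) ?_
    intro a b hab
    exact Subtype.ext (Subtype.ext (congrArg (fun z : K => (z : W)) hab))
  · intro h
    exact hyq (congrArg Subtype.val h)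
  · rw [← mem_map_iff _ T.subtype hinj, eY₀]
    exact h0
  · intro h hne hm
    rw [← mem_map_iff _ T.subtype hinj, eY₀] at hm
    rw [← mem_map_iff _ T.subtype hinj, eK]
    exact hcond h hne hm

/-- Commutator-closed normal subgroups of `Y₀` lie in every `h` with `Y₀` in `h N_q E_{q'}`. -/
theorem cond_aux {h : FittingClass} {W : Type} [Group W] [Finite W] {q : ℕ} [hq : Fact q.Prime]
    {Y₀ S : Subgroup W} {y₀ : W} (hSY : S ≤ Y₀) (hyY : y₀ ∈ Y₀)
    (hn : Y₀ ≤ Subgroup.normalizer (S : Set W)) (hS : S ≤ ⁅S, Subgroup.zpowers y₀⁆)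
    (hy₀ : ∃ n : ℕ, y₀ ^ q ^ n = 1) (hm : (h * pGroups q * pPrimeGroups q).Mem Y₀) :
    h.Mem S := by
  have hinj := Subgroup.subtype_injective Y₀
  have hSn : (S.subgroupOf Y₀).Normal := Subgroup.normal_subgroupOf_of_le_normalizer hn
  have eS : (S.subgroupOf Y₀).map Y₀.subtype = S := by
    rw [Subgroup.subgroupOf_map_subtype, inf_of_le_left hSY]
  rw [mem_mul_pPrime] at hm
  obtain ⟨hne, hcard⟩ := hm
  have hne' : h.NonEmpty := by
    obtain ⟨_, _, h1⟩ := hne
    exact h1.2.1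
  set P := (h * pGroups q).rad Y₀ with hP
  set R := h.rad Y₀ with hR
  -- `y₀ ∈ P`
  obtain ⟨n, hn'⟩ := hy₀
  have hyP : (⟨y₀, hyY⟩ : Y₀) ∈ P := by
    rw [← QuotientGroup.eq_one_iff]
    have h1 : ((⟨y₀, hyY⟩ : Y₀) : Y₀ ⧸ P) ^ q ^ n = 1 := by
      rw [← QuotientGroup.mk_pow]
      have : (⟨y₀, hyY⟩ : Y₀) ^ q ^ n = 1 := Subtype.ext hn'
      rw [this]; rfl
    have h2 : orderOf ((⟨y₀, hyY⟩ : Y₀) : Y₀ ⧸ P) ∣ q ^ n := orderOf_dvd_of_pow_eq_one h1
    have h3 : orderOf ((⟨y₀, hyY⟩ : Y₀) : Y₀ ⧸ P) ∣ Nat.card (Y₀ ⧸ P) := orderOf_dvd_natCard _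
    have h4 : Nat.Coprime (q ^ n) (Nat.card (Y₀ ⧸ P)) :=
      Nat.Coprime.pow_left n ((Nat.Prime.coprime_iff_not_dvd hq.out).2 hcard)
    rw [← orderOf_eq_one_iff]
    exact Nat.eq_one_of_dvd_coprimes h4 h2 h3
  have hS' : S.subgroupOf Y₀ ≤ ⁅S.subgroupOf Y₀, Subgroup.zpowers (⟨y₀, hyY⟩ : Y₀)⁆ := by
    rw [← Subgroup.map_le_map_iff_of_injective hinj, Subgroup.map_commutator, eS,
      MonoidHom.map_zpowers]
    exact hS
  have hSP : S.subgroupOf Y₀ ≤ P := by
    refine hS'.trans ?_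
    refine (Subgroup.commutator_mono le_top ?_).trans (Subgroup.commutator_le_right ⊤ P)
    rw [Subgroup.zpowers_le]
    exact hyP
  have hPR : ∀ x ∈ P, ∃ n : ℕ, x ^ q ^ n ∈ R := by
    intro x hx
    have h1 : (h * pGroups q).Mem P := mem_rad hne
    rw [mem_mul_pGroups] at h1
    obtain ⟨k, hk⟩ := h1.2 ((⟨x, hx⟩ : P) : P ⧸ h.rad P)
    refine ⟨k, ?_⟩
    rw [← QuotientGroup.mk_pow, QuotientGroup.eq_one_iff, rad_subgroup_eq hne' P] at hk
    exact hk
  have hSR := le_of_comm hS' hSP hyP hPR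
  have h5 : h.Mem (S.subgroupOf Y₀) := mem_of_le_normal hSR (mem_rad hne')
  rw [← mem_map_iff _ Y₀.subtype hinj, eS] at h5
  exact h5

/-- The twisted element of the wreath product. -/
noncomputable def tw {H : Type} [Group H] (q : ℕ) (h : H) : Wr H (Zp q) :=
  ⟨Pi.mulSingle 1 h, Multiplicative.ofAdd 1⟩

lemma tw_pow_aux {H : Type} [Group H] {q : ℕ} [hq : Fact q.Prime] (h : H) (n : ℕ) (hn : n ≤ q) :
    (∀ x : Zp q, (tw q h ^ n).f x = if (Multiplicative.toAdd x).val < n then h else 1) ∧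
      (tw q h ^ n).t = Multiplicative.ofAdd (n : ZMod q) := by
  induction n with
  | zero =>
    refine ⟨fun x => ?_, ?_⟩
    · simp
    · simp
  | succ n ih =>
    obtain ⟨h1, h2⟩ := ih (by omega)
    rw [pow_succ]
    refine ⟨fun x => ?_, ?_⟩
    · rw [Wr.mul_f, h1, h2]
      have hnq : n < q := by omega
      have hval : ((n : ZMod q)).val = n := ZMod.val_natCast_of_lt hnq
      by_cases hx : (Multiplicative.toAdd x).val = n
      · have hx' : x = Multiplicative.ofAdd (n : ZMod q) := by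
          apply Multiplicative.toAdd.injective
          apply ZMod.val_injective q
          rw [hx, toAdd_ofAdd, hval]
        subst hx'
        rw [inv_mul_cancel]
        simp [tw, hval]
      · have hne : (Multiplicative.ofAdd (n : ZMod q))⁻¹ * x ≠ 1 := by
          intro h3
          apply hx
          have h4 : x = Multiplicative.ofAdd (n : ZMod q) := by
            rw [inv_mul_eq_one] at h3
            exact h3.symm
          rw [h4, toAdd_ofAdd, hval]
        have h5 : (tw q h).f ((Multiplicative.ofAdd (n : ZMod q))⁻¹ * x) = 1 := by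
          exact Pi.mulSingle_eq_of_ne (M := fun _ : Zp q => H) hne h
        rw [h5, mul_one]
        congr 1
        rw [eq_iff_iff]
        omega
    · rw [Wr.mul_t, h2]
      simp only [tw]
      rw [← ofAdd_add]
      push_cast
      rfl

lemma tw_pow_q {H : Type} [Group H] {q : ℕ} [hq : Fact q.Prime] (h : H) :
    tw q h ^ q = Wr.inl fun _ => h := by
  obtain ⟨h1, h2⟩ := tw_pow_aux (q := q) h q le_rfl
  refine Wr.ext (funext fun x => ?_) ?_
  · rw [h1, if_pos (ZMod.val_lt _)]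
    rfl
  · rw [h2]
    simp

end Pool.Agent.Helper46.Fit
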