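import Pool.Agent.Helper46.Fit.Twist

/-!
The twisted wreath product argument, continued.
-/

namespace Pool.Agent.Helper46.Fit

open FittingClass
open Pool.Agent.Helper46.Form (Wr Zp Zp_pow card_Zp)
open scoped commutatorElement

section

variable {G H : Type} [Group G] [Group H] {q : ℕ} [hq : Fact q.Prime]

/-- `base K` is commutator-closed under the diagonal element. -/
lemma base_le_comm {C : Subgroup (Wr H (Zp q))} {K : Subgroup H}
    {h : H} (hK : K ≤ ⁅K, Subgroup.zpowers h⁆)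
    (hC : ∀ k : Zp q → H, (∀ x, k x ∈ K) → ∀ i : ℤ,
      (Wr.inl k * (Wr.inl fun _ => h) ^ i * (Wr.inl k)⁻¹ * ((Wr.inl fun _ => h) ^ i)⁻¹ :
        Wr H (Zp q)) ∈ C) :
    (Wr.base K : Subgroup (Wr H (Zp q))) ≤ C := by
  classical
  intro w hw
  rw [← Wr.inl_of_t_eq_one hw.1]
  have h1 : w.f ∈ C.comap (Wr.inl : (Zp q → H) →* Wr H (Zp q)) := by
    apply Subgroup.pi_mem_of_mulSingle_mem
    intro x
    have h2 : w.f x ∈ ⁅K, Subgroup.zpowers h⁆ := hK (hw.2 x)
    have h3 : ⁅K, Subgroup.zpowers h⁆ ≤ (C.comap (Wr.inl : (Zp q → H) →* Wr H (Zp q))).comap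
        (MonoidHom.mulSingle (fun _ : Zp q => H) x) := by
      rw [Subgroup.commutator_le]
      intro k hk z hz
      obtain ⟨i, rfl⟩ := Subgroup.mem_zpowers_iff.1 hz
      have h4 := hC (Pi.mulSingle x k) (fun y => by
        by_cases hy : y = x
        · subst hy; simpa using hk
        · rw [Pi.mulSingle_eq_of_ne hy]; exact K.one_mem) i
      change Wr.inl (Pi.mulSingle x ⁅k, h ^ i⁆) ∈ C
      convert h4 using 1
      rw [← map_zpow, ← map_inv, ← map_inv, ← map_mul, ← map_mul, ← map_mul]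
      congr 1
      ext y
      by_cases hy : y = x
      · subst hy
        simp [commutatorElement_def]
      · simp [Pi.mulSingle_eq_of_ne hy]
    exact h3 h2
  exact h1

omit hq in
lemma pow_q_pow {W W' : Type} [Group W] [Group W'] {a : W} {b : W'} (ha : ∃ n : ℕ, a ^ q ^ n = 1)
    (hb : ∃ n : ℕ, b ^ q ^ n = 1) : ∃ n : ℕ, a ^ q ^ n = 1 ∧ b ^ q ^ n = 1 := by
  obtain ⟨n, hn⟩ := ha
  obtain ⟨m, hm⟩ := hb
  refine ⟨n + m, ?_, ?_⟩
  · rw [pow_add, pow_mul, hn, one_pow]
  · rw [add_comm, pow_add, pow_mul, hm, one_pow]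

end

/-- The twisted group belongs to the class. -/
theorem twisted_mem {F : FittingClass} (hsat : F.Saturated) (hFs : F.Soluble) {G H : Type}
    [Group G] [Group H] [Finite G] [Finite H] {q : ℕ} [hq : Fact q.Prime]
    (L : Subgroup G) (g : G) (hgL : g ∈ Subgroup.normalizer (L : Set G))
    (hg : ∃ n : ℕ, g ^ q ^ n = 1) (hL : L ≤ ⁅L, Subgroup.zpowers g⁆)
    (hL0 : F.Mem (L ⊔ Subgroup.zpowers (g ^ q) : Subgroup G))
    (K : Subgroup H) [hKn : K.Normal] (h : H) (htop : K ⊔ Subgroup.zpowers h = ⊤)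
    (hh : ∃ n : ℕ, h ^ q ^ n = 1) (hK : K ≤ ⁅K, Subgroup.zpowers h⁆) (hh1 : h ≠ 1)
    (hH : F.Mem H) (hLK : ∀ X : FittingClass, X.Mem K → X.Mem L) :
    F.Mem (L.prod (Wr.base K) ⊔ Subgroup.zpowers (g, tw q h) :
      Subgroup (G × Wr H (Zp q))) := by
  classical
  have htwq : tw q h ^ q = Wr.inl fun _ => h := tw_pow_q h
  have hyq : ((g, tw q h) : G × Wr H (Zp q)) ^ q = (g ^ q, Wr.inl fun _ => h) := by
    rw [Prod.pow_mk, htwq]
  -- the big group `M`
  have hM : F.Mem ((L ⊔ Subgroup.zpowers (g ^ q)).prod (Wr.base (⊤ : Subgroup H)) :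
      Subgroup (G × Wr H (Zp q))) :=
    mem_prod_subgroup hL0 (mem_base ⊤ (mem_top_iff.2 hH))
  have hK₁M : (L.prod (Wr.base K) : Subgroup (G × Wr H (Zp q))) ≤
      (L ⊔ Subgroup.zpowers (g ^ q)).prod (Wr.base (⊤ : Subgroup H)) := by
    rintro ⟨a, b⟩ ⟨h1, h2⟩
    exact ⟨Subgroup.mem_sup_left h1, h2.1, fun x => Subgroup.mem_top _⟩
  have hyqM : ((g ^ q, Wr.inl fun _ => h) : G × Wr H (Zp q)) ∈
      (L ⊔ Subgroup.zpowers (g ^ q)).prod (Wr.base (⊤ : Subgroup H)) :=
    ⟨Subgroup.mem_sup_right (Subgroup.mem_zpowers _), rfl, fun x => Subgroup.mem_top _⟩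
  have hgqL : g ^ q ∈ Subgroup.normalizer (L : Set G) := Subgroup.pow_mem _ hgL q
  have hcommM : ∀ a ∈ (L ⊔ Subgroup.zpowers (g ^ q)).prod (Wr.base (⊤ : Subgroup H)),
      ∀ b ∈ (L ⊔ Subgroup.zpowers (g ^ q)).prod (Wr.base (⊤ : Subgroup H)),
      a * b * a⁻¹ * b⁻¹ ∈ (L.prod (Wr.base K) : Subgroup (G × Wr H (Zp q))) := by
    rintro ⟨a, v⟩ ⟨ha, hv⟩ ⟨b, w⟩ ⟨hb, hw⟩
    refine ⟨comm_mem_ambient hgqL a ha b hb, ?_⟩
    have hvt := hv.1
    have hwt := hw.1
    simp only at hvt hwt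
    refine ⟨by simp [hvt, hwt], fun x => ?_⟩
    have := comm_mem htop (v.f x) (w.f x)
    simpa [hvt, hwt] using this
  have hY₀M : (L.prod (Wr.base K) ⊔ Subgroup.zpowers (g ^ q, Wr.inl fun _ => h) :
      Subgroup (G × Wr H (Zp q))) ≤
      (L ⊔ Subgroup.zpowers (g ^ q)).prod (Wr.base (⊤ : Subgroup H)) :=
    sup_le hK₁M (by rw [Subgroup.zpowers_le]; exact hyqM)
  refine star_ambient (q := q) hsat _ _ ?_ ?_ ?_ ?_ ?_ ?_ ?_
  · -- normalizer
    rw [Subgroup.mem_normalizer_iff] at hgL ⊢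
    rintro ⟨a, w⟩
    have hn : (Wr.base K : Subgroup (Wr H (Zp q))).Normal := inferInstance
    have h2 : w ∈ (Wr.base K : Subgroup (Wr H (Zp q))) ↔
        tw q h * w * (tw q h)⁻¹ ∈ (Wr.base K : Subgroup (Wr H (Zp q))) := by
      constructor
      · intro hw
        exact hn.conj_mem _ hw _
      · intro hw
        have h3 := hn.conj_mem _ hw (tw q h)⁻¹
        have e : (tw q h)⁻¹ * (tw q h * w * (tw q h)⁻¹) * (tw q h)⁻¹⁻¹ = w := by group
        rwa [e] at h3
    exact and_congr (hgL a) h2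
  · -- order
    obtain ⟨n, hn1, hn2⟩ := pow_q_pow hg hh
    refine ⟨n + 1, ?_⟩
    rw [pow_succ', pow_mul, hyq, Prod.pow_mk, ← map_pow]
    refine Prod.ext ?_ ?_
    · simp only
      rw [← pow_mul, mul_comm, pow_mul, hn1, one_pow]
      rfl
    · simp only
      have : (fun _ : Zp q => h) ^ q ^ n = 1 := by
        ext x
        exact hn2
      rw [this, map_one]
      rfl
  · -- commutator-closed
    set C : Subgroup (G × Wr H (Zp q)) :=
      ⁅(L.prod (Wr.base K) : Subgroup (G × Wr H (Zp q))),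
        Subgroup.zpowers ((g, tw q h) : G × Wr H (Zp q))⁆ with hC
    have c1 : L ≤ C.comap (MonoidHom.inl G (Wr H (Zp q))) := by
      refine hL.trans ?_
      rw [Subgroup.commutator_le]
      intro l hl z hz
      obtain ⟨i, rfl⟩ := Subgroup.mem_zpowers_iff.1 hz
      have h1 : ⁅((l, 1) : G × Wr H (Zp q)), ((g, tw q h) : G × Wr H (Zp q)) ^ i⁆ ∈ C :=
        Subgroup.commutator_mem_commutator ⟨hl, Subgroup.one_mem _⟩
          (Subgroup.zpow_mem _ (Subgroup.mem_zpowers _) i)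
      change ((⁅l, g ^ i⁆, 1) : G × Wr H (Zp q)) ∈ C
      convert h1 using 1
      rw [commutatorElement_def (l : G), commutatorElement_def]
      refine Prod.ext ?_ ?_
      · simp
      · simp
    have c2 : (Wr.base K : Subgroup (Wr H (Zp q))) ≤ C.comap (MonoidHom.inr G (Wr H (Zp q))) := by
      refine base_le_comm hK ?_
      intro k hk i
      have h1 : ⁅((1, Wr.inl k) : G × Wr H (Zp q)),
          ((g, tw q h) : G × Wr H (Zp q)) ^ ((q : ℤ) * i)⁆ ∈ C :=
        Subgroup.commutator_mem_commutator ⟨L.one_mem, rfl, hk⟩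
          (Subgroup.zpow_mem _ (Subgroup.mem_zpowers _) _)
      rw [zpow_mul, zpow_natCast, hyq, commutatorElement_def] at h1
      change ((1 : G), _) ∈ C
      convert h1 using 1
      refine Prod.ext ?_ ?_
      · simp
      · simp
    rintro ⟨a, w⟩ ⟨ha, hw⟩
    have h1 : ((a, w) : G × Wr H (Zp q)) = (a, 1) * (1, w) := by simp
    rw [h1]
    exact C.mul_mem (c1 ha) (c2 hw)
  · -- solvable
    have h1 := hFs _ hM
    exact Group.isSolvable_of_isSolvable_injective (Subgroup.inclusion_injective hK₁M)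
  · rw [hyq]
    intro h1
    apply hh1
    have h2 := congrArg (fun z : G × Wr H (Zp q) => z.2.f 1) h1
    simpa using h2
  · rw [hyq]
    exact mem_of_le_normalizer hY₀M
      (le_normalizer_of_comm hcommM le_sup_left hY₀M) hM
  · intro X hne hX
    rw [hyq] at hX
    -- the subgroup `S`
    have hS : X.Mem ((⊥ : Subgroup G).prod (Wr.base K) : Subgroup (G × Wr H (Zp q))) := by
      refine cond_aux (y₀ := (g ^ q, Wr.inl fun _ => h)) ?_ ?_ ?_ ?_ ?_ hX
      · refine le_trans ?_ le_sup_left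
        exact Subgroup.prod_mono bot_le le_rfl
      · exact Subgroup.mem_sup_right (Subgroup.mem_zpowers _)
      · have hn : ((⊥ : Subgroup G).prod (Wr.base K) : Subgroup (G × Wr H (Zp q))).Normal :=
          inferInstance
        rw [Subgroup.normalizer_eq_top_iff.2 hn]
        exact le_top
      · have c2 : (Wr.base K : Subgroup (Wr H (Zp q))) ≤
            (⁅((⊥ : Subgroup G).prod (Wr.base K) : Subgroup (G × Wr H (Zp q))),
              Subgroup.zpowers ((g ^ q, Wr.inl fun _ => h) : G × Wr H (Zp q))⁆).comap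
              (MonoidHom.inr G (Wr H (Zp q))) := by
          refine base_le_comm hK ?_
          intro k hk i
          have h1 : ⁅((1, Wr.inl k) : G × Wr H (Zp q)),
              ((g ^ q, Wr.inl fun _ => h) : G × Wr H (Zp q)) ^ i⁆ ∈
              ⁅((⊥ : Subgroup G).prod (Wr.base K) : Subgroup (G × Wr H (Zp q))),
                Subgroup.zpowers ((g ^ q, Wr.inl fun _ => h) : G × Wr H (Zp q))⁆ :=
            Subgroup.commutator_mem_commutator ⟨Subgroup.one_mem _, rfl, hk⟩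
              (Subgroup.zpow_mem _ (Subgroup.mem_zpowers _) _)
          rw [commutatorElement_def] at h1
          change ((1 : G), _) ∈ ⁅((⊥ : Subgroup G).prod (Wr.base K) : Subgroup (G × Wr H (Zp q))),
                Subgroup.zpowers ((g ^ q, Wr.inl fun _ => h) : G × Wr H (Zp q))⁆
          convert h1 using 1
          refine Prod.ext ?_ ?_
          · simp
          · simp
        rintro ⟨a, w⟩ ⟨ha, hw⟩
        have ha' : a = 1 := Subgroup.mem_bot.1 ha
        subst ha'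
        exact c2 hw
      · obtain ⟨n, hn1, hn2⟩ := pow_q_pow hg hh
        refine ⟨n, ?_⟩
        rw [Prod.pow_mk, ← map_pow]
        refine Prod.ext ?_ ?_
        · simp only
          rw [← pow_mul, mul_comm, pow_mul, hn1, one_pow]
          rfl
        · simp only
          have : (fun _ : Zp q => h) ^ q ^ n = 1 := by
            ext x
            exact hn2
          rw [this, map_one]
          rfl
    have hbase : X.Mem (Wr.base K : Subgroup (Wr H (Zp q))) := by
      have e : (⊥ : Subgroup G).prod (Wr.base K : Subgroup (Wr H (Zp q))) =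
          (Wr.base K).map (MonoidHom.inr G (Wr H (Zp q))) := by
        ext x
        constructor
        · rintro ⟨h1, h2⟩
          exact ⟨x.2, h2, Prod.ext (Subgroup.mem_bot.1 h1).symm rfl⟩
        · rintro ⟨w, hw, rfl⟩
          exact ⟨rfl, hw⟩
      rw [e, mem_map_iff _ _ (fun a b h => congrArg Prod.snd h)] at hS
      exact hS
    have hXK : X.Mem K := by
      let φ : H →* Wr H (Zp q) := Wr.inl.comp (MonoidHom.mulSingle (fun _ : Zp q => H) 1)
      have hφ : Function.Injective φ := by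
        intro a b hab
        have := congrFun (congrArg Wr.f hab) 1
        simpa [φ] using this
      rw [← mem_map_iff K φ hφ]
      refine mem_of_le_normalizer ?_ ?_ hbase
      · rintro _ ⟨k, hk, rfl⟩
        refine ⟨rfl, fun x => ?_⟩
        by_cases hx : x = 1
        · subst hx; simpa [φ] using hk
        · simp only [φ, MonoidHom.comp_apply, MonoidHom.mulSingle_apply, Wr.inl_f,
            Pi.mulSingle_eq_of_ne hx]
          exact K.one_mem
      · rw [Subgroup.le_normalizer_iff]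
        rintro w hw _ ⟨k, hk, rfl⟩
        refine ⟨w.f 1 * k * (w.f 1)⁻¹, hKn.conj_mem _ hk _, ?_⟩
        refine Wr.ext (funext fun x => ?_) ?_
        · by_cases hx : x = 1
          · subst hx
            simp [φ, hw.1]
          · simp [φ, hw.1, Pi.mulSingle_eq_of_ne hx]
        · simp [φ, hw.1]
    exact mem_prod_subgroup (hLK X hXK) hbase

/-- The key step: `G` belongs to the class. -/
theorem key_step {F : FittingClass} (hsat : F.Saturated) (hFs : F.Soluble) {G H : Type}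
    [Group G] [Group H] [Finite G] [Finite H] {q : ℕ} [hq : Fact q.Prime]
    (L : Subgroup G) [hLn : L.Normal] (g : G) (hGtop : L ⊔ Subgroup.zpowers g = ⊤)
    (hg : ∃ n : ℕ, g ^ q ^ n = 1) (hL : L ≤ ⁅L, Subgroup.zpowers g⁆)
    (hL0 : F.Mem (L ⊔ Subgroup.zpowers (g ^ q) : Subgroup G))
    (K : Subgroup H) [hKn : K.Normal] (h : H) (htop : K ⊔ Subgroup.zpowers h = ⊤)
    (hh : ∃ n : ℕ, h ^ q ^ n = 1) (hK : K ≤ ⁅K, Subgroup.zpowers h⁆) (hh1 : h ≠ 1)
    (hH : F.Mem H) (hLK : ∀ X : FittingClass, X.Mem K → X.Mem L) : F.Mem G := by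
  have hF := nonEmpty_of_mem hH
  have hnorm : ∀ x : G, x ∈ Subgroup.normalizer (L : Set G) := fun x => by
    rw [Subgroup.normalizer_eq_top_iff.2 hLn]; trivial
  have hA₁ := twisted_mem hsat hFs L g (hnorm g) hg hL hL0 K h htop hh hK hh1 hH hLK
  have hA₂ : F.Mem ((⊥ : Subgroup G).prod (Wr.base K) ⊔ Subgroup.zpowers (1, tw q h) :
      Subgroup (G × Wr H (Zp q))) := by
    refine twisted_mem hsat hFs (⊥ : Subgroup G) 1 (Subgroup.one_mem _) ⟨0, one_pow _⟩ bot_le ?_
      K h htop hh hK hh1 hH ?_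
    · rw [one_pow, Subgroup.zpowers_one_eq_bot, sup_idem]
      exact mem_of_subsingleton hF _
    · intro X hX
      exact mem_of_subsingleton (nonEmpty_of_mem hX) _
  have hLF : F.Mem L := hLK F (F.normal K hH)
  have hA₃ : F.Mem (L.prod (⊥ : Subgroup (Wr H (Zp q)))) :=
    mem_prod_subgroup hLF (mem_of_subsingleton hF _)
  set A₁ : Subgroup (G × Wr H (Zp q)) := L.prod (Wr.base K) ⊔ Subgroup.zpowers (g, tw q h) with eA₁
  set A₂ : Subgroup (G × Wr H (Zp q)) :=
    (⊥ : Subgroup G).prod (Wr.base K) ⊔ Subgroup.zpowers (1, tw q h) with eA₂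
  set A₃ : Subgroup (G × Wr H (Zp q)) := L.prod (⊥ : Subgroup (Wr H (Zp q))) with eA₃
  have hA₂le : A₂ ≤ (⊥ : Subgroup G).prod (⊤ : Subgroup (Wr H (Zp q))) := by
    refine sup_le (Subgroup.prod_mono le_rfl le_top) ?_
    rw [Subgroup.zpowers_le]
    exact ⟨rfl, trivial⟩
  have hA₃n : A₃.Normal := inferInstance
  have hA₂₃ : F.Mem (A₂ ⊔ A₃ : Subgroup (G × Wr H (Zp q))) := by
    refine mem_sup_of_le_normalizer ?_ ?_ hA₂ hA₃
    · rw [Subgroup.normalizer_eq_top_iff.2 hA₃n]; exact le_top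
    · rw [Subgroup.le_normalizer_iff]
      rintro ⟨a, b⟩ ⟨ha, hb⟩ ⟨c, d⟩ hcd
      have h1 : c = 1 := Subgroup.mem_bot.1 (hA₂le hcd).1
      have h2 : b = 1 := Subgroup.mem_bot.1 hb
      subst h1 h2
      convert hcd using 1
      refine Prod.ext ?_ ?_
      · simp
      · simp
  -- the ambient group
  have htwn : tw q h ∈ Subgroup.normalizer ((Wr.base K : Subgroup (Wr H (Zp q))) :
      Set (Wr H (Zp q))) := by
    rw [Subgroup.normalizer_eq_top_iff.2 inferInstance]; trivial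
  set B : Subgroup (G × Wr H (Zp q)) :=
    (⊤ : Subgroup G).prod (Wr.base K ⊔ Subgroup.zpowers (tw q h)) with hB
  have hcomm : ∀ a ∈ B, ∀ b ∈ B, a * b * a⁻¹ * b⁻¹ ∈
      (L.prod (Wr.base K) : Subgroup (G × Wr H (Zp q))) := by
    rintro ⟨a, v⟩ ⟨_, hv⟩ ⟨b, w⟩ ⟨_, hw⟩
    exact ⟨comm_mem hGtop a b, comm_mem_ambient htwn v hv w hw⟩
  have hA₁B : A₁ ≤ B := by
    refine sup_le (Subgroup.prod_mono le_top le_sup_left) ?_
    rw [Subgroup.zpowers_le]
    exact ⟨trivial, Subgroup.mem_sup_right (Subgroup.mem_zpowers _)⟩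
  have hA₂₃B : A₂ ⊔ A₃ ≤ B := by
    refine sup_le (sup_le (Subgroup.prod_mono le_top le_sup_left) ?_)
      (Subgroup.prod_mono le_top bot_le)
    rw [Subgroup.zpowers_le]
    exact ⟨trivial, Subgroup.mem_sup_right (Subgroup.mem_zpowers _)⟩
  have hK₁A₂₃ : (L.prod (Wr.base K) : Subgroup (G × Wr H (Zp q))) ≤ A₂ ⊔ A₃ := by
    rintro ⟨a, w⟩ ⟨ha, hw⟩
    have e : ((a, w) : G × Wr H (Zp q)) = (1, w) * (a, 1) := by simp
    rw [e]
    refine Subgroup.mul_mem _ (Subgroup.mem_sup_left (Subgroup.mem_sup_left ?_))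
      (Subgroup.mem_sup_right ?_)
    · exact ⟨rfl, hw⟩
    · exact ⟨ha, rfl⟩
  have hall : F.Mem (A₁ ⊔ (A₂ ⊔ A₃) : Subgroup (G × Wr H (Zp q))) := by
    refine mem_sup_of_le_normalizer ?_ ?_ hA₁ hA₂₃
    · exact hA₁B.trans (le_normalizer_of_comm hcomm hK₁A₂₃ hA₂₃B)
    · exact hA₂₃B.trans (le_normalizer_of_comm hcomm le_sup_left hA₁B)
  have hD : ((⊤ : Subgroup G).prod (⊥ : Subgroup (Wr H (Zp q)))) ≤ A₁ ⊔ (A₂ ⊔ A₃) := by
    have h1 : (⊤ : Subgroup G) ≤ (A₁ ⊔ (A₂ ⊔ A₃)).comap (MonoidHom.inl G (Wr H (Zp q))) := by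
      rw [← hGtop]
      refine sup_le ?_ ?_
      · intro l hl
        exact Subgroup.mem_sup_right (Subgroup.mem_sup_right ⟨hl, rfl⟩)
      · rw [Subgroup.zpowers_le]
        change ((g, 1) : G × Wr H (Zp q)) ∈ A₁ ⊔ (A₂ ⊔ A₃)
        have e : ((g, 1) : G × Wr H (Zp q)) = (g, tw q h) * (1, tw q h)⁻¹ := by
          refine Prod.ext ?_ ?_
          · simp
          · simp
        rw [e]
        refine Subgroup.mul_mem _ (Subgroup.mem_sup_left (Subgroup.mem_sup_right
          (Subgroup.mem_zpowers _))) (Subgroup.inv_mem _ (Subgroup.mem_sup_right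
          (Subgroup.mem_sup_left (Subgroup.mem_sup_right (Subgroup.mem_zpowers _)))))
    rintro ⟨a, b⟩ ⟨_, hb⟩
    have hb' : b = 1 := Subgroup.mem_bot.1 hb
    subst hb'
    exact h1 (Subgroup.mem_top a)
  have hDF : F.Mem ((⊤ : Subgroup G).prod (⊥ : Subgroup (Wr H (Zp q)))) :=
    mem_of_le_normal hD hall
  have e : (⊤ : Subgroup G).prod (⊥ : Subgroup (Wr H (Zp q))) =
      (⊤ : Subgroup G).map (MonoidHom.inl G (Wr H (Zp q))) := by
    ext x
    constructor
    · rintro ⟨_, h2⟩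
      exact ⟨x.1, trivial, Prod.ext rfl (Subgroup.mem_bot.1 h2).symm⟩
    · rintro ⟨w, _, rfl⟩
      exact ⟨trivial, rfl⟩
  rw [e, mem_map_iff _ _ (fun a b h => congrArg Prod.fst h)] at hDF
  exact mem_top_iff.1 hDF

end Pool.Agent.Helper46.Fit
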